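import Pool.Agent.MP_670f9a_nt.H13.Spec2

/-! A long upper edge of the convex hull of a finite set of exponents. -/

namespace Pool.Agent.MP_670f9a_nt.H76

open Pool.Agent.MP_670f9a_nt.NP Finset

theorem wrap (E : Finset (Fin 2 →₀ ℕ)) (k : ℕ) : ∀ (p : Fin 2 →₀ ℕ) (a : ℤ) (b : ℕ), p ∈ E →
    1 ≤ b → (∀ m ∈ E, wt a b m ≤ wt a b p) → (E.filter fun q => p 0 < q 0).card ≤ k →
    ∃ (q₁ : ℤ) (q₂ : ℕ) (s t : Fin 2 →₀ ℕ), 1 ≤ q₂ ∧ s ∈ E ∧ t ∈ E ∧ s 0 ≤ t 0 ∧
      (∀ m ∈ E, wt q₁ q₂ m ≤ wt q₁ q₂ s) ∧ wt q₁ q₂ t = wt q₁ q₂ s ∧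
      ∀ m ∈ E, (m 0 : ℤ) - p 0 ≤ k * ((t 0 : ℤ) - s 0) := by
  induction k with
  | zero =>
    intro p a b hp hb hm hc
    refine ⟨a, b, p, p, hb, hp, hp, le_rfl, hm, rfl, fun m h => ?_⟩
    have := (filter_eq_empty_iff.1 (card_eq_zero.1 (Nat.le_zero.1 hc))) h
    omega
  | succ k ih =>
    intro p a b hp hb hm hc
    rcases (E.filter fun q => p 0 < q 0).eq_empty_or_nonempty with h0 | h0
    · refine ⟨a, b, p, p, hb, hp, hp, le_rfl, hm, rfl, fun m h => ?_⟩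
      have := (filter_eq_empty_iff.1 h0) h
      rw [sub_self, mul_zero]
      omega
    obtain ⟨q, hq, hmin⟩ := exists_min_image _
      (fun m : Fin 2 →₀ ℕ => ((p 1 : ℚ) - m 1) / ((m 0 : ℚ) - p 0)) h0
    obtain ⟨hqE, hpq⟩ := mem_filter.1 hq
    obtain ⟨c, hc'⟩ : ∃ c : ℕ, (c : ℤ) = q 0 - p 0 := ⟨q 0 - p 0, by omega⟩
    have c1 : 1 ≤ c := by omega
    have e : wt ((p 1 : ℤ) - q 1) c q = wt ((p 1 : ℤ) - q 1) c p := by
      unfold wt
      rw [hc']
      ring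
    have hmax : ∀ m ∈ E, wt ((p 1 : ℤ) - q 1) c m ≤ wt ((p 1 : ℤ) - q 1) c p := fun m h => by
      unfold wt
      rw [hc']
      rcases lt_or_ge (p 0) (m 0) with h1 | h1
      · have h2 := hmin m (mem_filter.2 ⟨h, h1⟩)
        rw [div_le_div_iff₀ (sub_pos.2 (by exact_mod_cast hpq))
          (sub_pos.2 (by exact_mod_cast h1))] at h2
        have h3 : ((p 1 : ℤ) - q 1) * ((m 0 : ℤ) - p 0) ≤ ((p 1 : ℤ) - m 1) * ((q 0 : ℤ) - p 0) := by
          exact_mod_cast h2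
        linarith
      · have h2 := hm m h
        have h3 := hm q hqE
        unfold wt at h2 h3
        have h4 : (0 : ℤ) ≤ p 0 - m 0 := by omega
        have h5 : (0 : ℤ) ≤ q 0 - p 0 := by omega
        have h6 : (0 : ℤ) < b := by omega
        refine le_of_mul_le_mul_left ?_ h6
        nlinarith [mul_nonneg h4 (sub_nonneg.2 h3), mul_nonneg h5 (sub_nonneg.2 h2)]
    have hck : (E.filter fun m => q 0 < m 0).card ≤ k := by
      have : (E.filter fun m => q 0 < m 0) ⊆ (E.filter fun m => p 0 < m 0).erase q := by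
        intro m h
        obtain ⟨h1, h2⟩ := mem_filter.1 h
        refine mem_erase.2 ⟨?_, mem_filter.2 ⟨h1, by omega⟩⟩
        rintro rfl
        omega
      have := card_le_card this
      rw [card_erase_of_mem hq] at this
      omega
    obtain ⟨q₁, q₂, s, t, h1, h2, h3, h4, h5, h6, h7⟩ :=
      ih q _ c hqE c1 (fun m h => e ▸ hmax m h) hck
    have k0 : (0 : ℤ) ≤ k := Int.natCast_nonneg k
    rcases le_total ((q 0 : ℤ) - p 0) ((t 0 : ℤ) - s 0) with h | h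
    · refine ⟨q₁, q₂, s, t, h1, h2, h3, h4, h5, h6, fun m hm => ?_⟩
      have := h7 m hm
      push_cast
      linarith
    · refine ⟨_, c, p, q, c1, hp, hqE, hpq.le, hmax, e, fun m hm => ?_⟩
      have := h7 m hm
      push_cast
      nlinarith [mul_le_mul_of_nonneg_left h k0]

theorem exists_ext (S : Finset (Fin 2 →₀ ℕ)) : ∃ E : Finset (Fin 2 →₀ ℕ), E ⊆ S ∧
    E.card = verts S ∧ ∀ a b B : ℤ, (∀ m ∈ E, a * m 0 + b * m 1 ≤ B) →
      ∀ m ∈ S, a * m 0 + b * m 1 ≤ B := by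
  classical
  let f : (Fin 2 →₀ ℕ) → Fin 2 → ℝ := fun m i => (m i : ℝ)
  have hf : Function.Injective f := fun m n h => by
    ext i
    exact Nat.cast_injective (R := ℝ) (congrFun h i)
  have himg : f '' (S.filter fun m => f m ∈ Set.extremePoints ℝ (convexHull ℝ (pts S)) : Finset _) =
      Set.extremePoints ℝ (convexHull ℝ (pts S)) := by
    refine Set.Subset.antisymm ?_ fun x hx => ?_
    · rintro _ ⟨m, hm, rfl⟩
      exact (mem_filter.1 hm).2
    · obtain ⟨m, hm, rfl⟩ := extremePoints_convexHull_subset hx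
      exact ⟨m, mem_filter.2 ⟨hm, hx⟩, rfl⟩
  refine ⟨S.filter fun m => f m ∈ Set.extremePoints ℝ (convexHull ℝ (pts S)), filter_subset _ _,
    ?_, fun a b B h m hm => ?_⟩
  · rw [verts, ← Set.ncard_coe_finset, ← Set.ncard_image_of_injective _ hf, himg]
  · have hfin : (pts S).Finite := S.finite_toSet.image _
    have hK := closure_convexHull_extremePoints (hfin.isCompact_convexHull ℝ)
      (convex_convexHull ℝ _)
    have hc : Convex ℝ {x : Fin 2 → ℝ | (a : ℝ) * x 0 + b * x 1 ≤ B} :=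
      convex_halfSpace_le ⟨fun x y => by simp only [Pi.add_apply]; ring,
        fun c x => by simp only [Pi.smul_apply, smul_eq_mul]; ring⟩ _
    have h1 : convexHull ℝ (pts S) ⊆ {x : Fin 2 → ℝ | (a : ℝ) * x 0 + b * x 1 ≤ B} := by
      rw [← hK]
      refine closure_minimal (convexHull_min ?_ hc) (isClosed_le (by fun_prop) continuous_const)
      rw [← himg]
      rintro _ ⟨n, hn, rfl⟩
      have := h n hn
      show (a : ℝ) * (n 0 : ℝ) + b * (n 1 : ℝ) ≤ B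
      exact_mod_cast this
    have h2 : (a : ℝ) * (m 0 : ℝ) + b * (m 1 : ℝ) ≤ B :=
      h1 (subset_convexHull ℝ _ ⟨m, hm, rfl⟩)
    exact_mod_cast h2

theorem sPoly : SPoly := by
  intro S hS
  obtain ⟨E, hES, hc, hE⟩ := exists_ext S
  have hne : E.Nonempty := by
    by_contra h
    rw [not_nonempty_iff_eq_empty] at h
    obtain ⟨m, hm⟩ := hS
    have := hE 0 0 (-1) (by simp [h]) m hm
    omega
  obtain ⟨y, -, hy⟩ := exists_max_image E (fun m => m 1) hne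
  obtain ⟨p, hp, hmax⟩ := exists_max_image E (wt (-((y 1 : ℤ) + 1)) 1) hne
  have hmin : ∀ m ∈ E, -1 * (m 0 : ℤ) + 0 * m 1 ≤ -(p 0 : ℤ) := fun m hm => by
    have h1 := hmax m hm
    have h2 : (p 1 : ℤ) ≤ y 1 := by exact_mod_cast hy p hp
    have h3 : (0 : ℤ) ≤ m 1 := Int.natCast_nonneg _
    have h4 : (0 : ℤ) ≤ y 1 := Int.natCast_nonneg _
    unfold wt at h1
    by_contra h
    have h5 : (1 : ℤ) ≤ p 0 - m 0 := by omega
    push_cast at h1
    nlinarith
  obtain ⟨q₁, q₂, s, t, h1, h2, h3, h4, h5, h6, h7⟩ :=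
    wrap E E.card p _ 1 hp le_rfl hmax (card_filter_le _ _)
  refine ⟨q₁, q₂, s, t, h1, hES h2, hES h3, h4, hE q₁ q₂ _ h5, h6, fun m hm m' hm' => ?_⟩
  have a1 := hE 1 0 (p 0 + E.card * ((t 0 : ℤ) - s 0))
    (fun n hn => by linarith [h7 n hn]) m hm
  have a2 := hE (-1) 0 _ hmin m' hm'
  have a3 : (m 0 : ℤ) - m' 0 ≤ verts S * ((t 0 : ℤ) - s 0) := by
    rw [← hc]
    linarith
  exact_mod_cast a3

end Pool.Agent.MP_670f9a_nt.H76
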