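import Pool.Agent.MP_670f9a_nt.H13.Spec

/-!
The coefficient functional of the square root is carried by a hedgehog.
-/

namespace Pool.Agent.MP_670f9a_nt.H76

open Polynomial Pool.Agent.MP_670f9a_nt.H13 Real

/-- The principal square root of the product of the linear factors. -/
noncomputable def ph (b : Multiset ℂ) (u : ℂ) : ℂ :=
  (b.map fun w => (1 - w * u) ^ ((2 : ℂ)⁻¹)).prod

lemma ph_nil (u : ℂ) : ph 0 u = 1 := by simp [ph]

lemma ph_cons (a : ℂ) (b : Multiset ℂ) (u : ℂ) :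
    ph (a ::ₘ b) u = (1 - a * u) ^ ((2 : ℂ)⁻¹) * ph b u := by simp [ph]

lemma lin_cons (a : ℂ) (b : Multiset ℂ) : lin (a ::ₘ b) = (1 - C a * X) * lin b := by simp [lin]

lemma ph_sq (b : Multiset ℂ) (u : ℂ) : ph b u ^ 2 = (lin b).eval u := by
  induction b using Multiset.induction_on with
  | empty => simp [ph, lin]
  | cons a b ih =>
    rw [ph_cons, lin_cons, mul_pow, ih, Complex.cpow_ofNat_inv_pow]
    simp

lemma ph_zero (b : Multiset ℂ) : ph b 0 = 1 := by
  induction b using Multiset.induction_on with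
  | empty => simp [ph]
  | cons a b ih => rw [ph_cons, ih]; simp

lemma ph_diff (b : Multiset ℂ) (u : ℂ) (h : ∀ w ∈ b, 1 - w * u ∈ Complex.slitPlane) :
    DifferentiableAt ℂ (ph b) u := by
  induction b using Multiset.induction_on with
  | empty =>
    have : ph 0 = fun _ => (1 : ℂ) := funext ph_nil
    rw [this]; exact differentiableAt_const _
  | cons a b ih =>
    have : ph (a ::ₘ b) = fun u => (1 - a * u) ^ ((2 : ℂ)⁻¹) * ph b u := funext (ph_cons a b)
    rw [this]
    refine DifferentiableAt.mul ?_ (ih fun w hw => h w (Multiset.mem_cons_of_mem hw))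
    exact DifferentiableAt.cpow (by fun_prop) (differentiableAt_const _)
      (h a (Multiset.mem_cons_self a b))

lemma ph_diff_disc (b : Multiset ℂ) (hb : ∀ w ∈ b, ‖w‖ < 1) (u : ℂ) (hu : ‖u‖ ≤ 1) :
    DifferentiableAt ℂ (ph b) u := by
  refine ph_diff b u fun w hw => ?_
  have h1 : ‖w * u‖ < 1 := by
    rw [norm_mul]
    have := hb w hw
    nlinarith [norm_nonneg w, norm_nonneg u]
  left
  have h2 := Complex.re_le_norm (w * u)
  simp only [Complex.sub_re, Complex.one_re]
  linarith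

lemma ph_bound (b : Multiset ℂ) (hb : ∀ w ∈ b, ‖w‖ < 1) (z : ℂ) (hz : z ≠ 0) (hz1 : ‖z‖ ≤ 1) :
    ‖z ^ b.card * ph b z⁻¹‖ ≤ 2 ^ b.card := by
  induction b using Multiset.induction_on with
  | empty => simp [ph]
  | cons a b ih =>
    have ih' := ih fun w hw => hb w (Multiset.mem_cons_of_mem hw)
    have ha := hb a (Multiset.mem_cons_self a b)
    have h1 : ‖z * (1 - a * z⁻¹) ^ ((2 : ℂ)⁻¹)‖ ≤ 2 := by
      have h2 : (z * (1 - a * z⁻¹) ^ ((2 : ℂ)⁻¹)) ^ 2 = z * (z - a) := by
        rw [mul_pow, Complex.cpow_ofNat_inv_pow]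
        field_simp
      have h3 : ‖z * (1 - a * z⁻¹) ^ ((2 : ℂ)⁻¹)‖ ^ 2 ≤ 2 ^ 2 := by
        rw [← norm_pow, h2, norm_mul]
        have h4 := norm_sub_le z a
        nlinarith [norm_nonneg z, norm_nonneg (z - a)]
      exact (pow_le_pow_iff_left₀ (norm_nonneg _) (by norm_num) two_ne_zero).1 h3
    have h5 : z ^ (a ::ₘ b).card * ph (a ::ₘ b) z⁻¹ =
        (z * (1 - a * z⁻¹) ^ ((2 : ℂ)⁻¹)) * (z ^ b.card * ph b z⁻¹) := by
      rw [ph_cons, Multiset.card_cons]; ring
    rw [h5, norm_mul, Multiset.card_cons, pow_succ, mul_comm (2 ^ b.card : ℝ) 2]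
    exact mul_le_mul h1 ih' (norm_nonneg _) (by norm_num)

/-- Mean value on the unit circle. -/
lemma avg_diff (F : ℂ → ℂ) (hF : ∀ u : ℂ, ‖u‖ ≤ 1 → DifferentiableAt ℂ F u) :
    circleAverage F 0 1 = F 0 := by
  refine circleAverage_of_differentiable_on_off_countable (s := ∅) Set.countable_empty ?_ ?_
  · intro u hu
    exact (hF u (by simpa using hu)).continuousAt.continuousWithinAt
  · intro u hu
    exact hF u (le_of_lt (by simpa using hu.1))

lemma sph_ne {u : ℂ} (hu : u ∈ Metric.sphere (0 : ℂ) |1|) : u ≠ 0 := by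
  rintro rfl
  simp at hu

lemma avg_mono (m j : ℕ) (a : ℂ) :
    circleAverage (fun u : ℂ => u⁻¹ ^ m * (a * u ^ j)) 0 1 = if j = m then a else 0 := by
  rcases le_or_gt m j with h | h
  · obtain ⟨k, rfl⟩ := Nat.exists_eq_add_of_le h
    have h1 : circleAverage (fun u : ℂ => u⁻¹ ^ m * (a * u ^ (m + k))) 0 1 =
        circleAverage (fun u : ℂ => a * u ^ k) 0 1 := by
      refine circleAverage_congr_sphere fun u hu => ?_
      have := sph_ne hu
      simp only [pow_add, inv_pow]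
      field_simp
    rw [h1, avg_diff _ (fun u _ => by fun_prop)]
    rcases Nat.eq_zero_or_pos k with rfl | hk
    · simp
    · rw [if_neg (by omega)]; simp [hk.ne']
  · obtain ⟨k, rfl⟩ := Nat.exists_eq_add_of_lt h
    have h1 : circleAverage (fun u : ℂ => u⁻¹ ^ (j + k + 1) * (a * u ^ j)) 0 1 =
        circleAverage (fun v : ℂ => a * v ^ (k + 1)) 0 1 := by
      rw [← circleAverage_zero_one_congr_inv (f := fun v : ℂ => a * v ^ (k + 1))]
      refine circleAverage_congr_sphere fun u hu => ?_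
      have := sph_ne hu
      simp only [pow_add, inv_pow]
      field_simp
    rw [h1, avg_diff _ (fun u _ => by fun_prop), if_neg (by omega)]
    simp

lemma ci_of_cont (F : ℂ → ℂ) (hF : ∀ u : ℂ, ‖u‖ = 1 → ContinuousAt F u) :
    CircleIntegrable F 0 1 := by
  refine ContinuousOn.circleIntegrable zero_le_one fun u hu => ?_
  exact (hF u (by simpa using hu)).continuousWithinAt

lemma avg_poly (m : ℕ) (Φ : ℂ[X]) :
    circleAverage (fun u : ℂ => u⁻¹ ^ m * Φ.eval u) 0 1 = Φ.coeff m := by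
  have hc : ∀ P : ℂ[X], CircleIntegrable (fun u : ℂ => u⁻¹ ^ m * P.eval u) 0 1 := by
    intro P
    refine ci_of_cont _ fun u hu => ?_
    have hu0 : u ≠ 0 := by rintro rfl; simp at hu
    exact ((continuousAt_inv₀ hu0).pow m).mul P.continuous.continuousAt
  induction Φ using Polynomial.induction_on' with
  | add p q hp hq =>
    simp only [eval_add, mul_add, coeff_add]
    rw [circleAverage_fun_add (hc p) (hc q), hp, hq]
  | monomial j a =>
    simp only [eval_monomial, coeff_monomial]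
    exact avg_mono m j a

/-- The remainder of the truncated square root. -/
lemma exists_rem (b : Multiset ℂ) (hb : ∀ w ∈ b, ‖w‖ < 1) (Φ : ℂ[X]) (M : ℕ)
    (h0 : Φ.coeff 0 = 1) (hd : X ^ M ∣ Φ ^ 2 - lin b) :
    ∃ E : ℂ → ℂ, (∀ u : ℂ, ‖u‖ ≤ 1 → DifferentiableAt ℂ E u) ∧
      ∀ u : ℂ, u ≠ 0 → ph b u = Φ.eval u + u ^ M * E u := by
  classical
  obtain ⟨q, hq⟩ := hd
  have he0 : Φ.eval 0 = 1 := by rw [← coeff_zero_eq_eval_zero, h0]
  set ψ : ℂ → ℂ := fun u => -q.eval u / (ph b u + Φ.eval u) with hψ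
  have hp0 : DifferentiableAt ℂ (ph b) 0 := ph_diff_disc b hb 0 (by simp)
  have hs0 : DifferentiableAt ℂ (fun u => ph b u + Φ.eval u) 0 :=
    hp0.add Φ.differentiableAt
  have hne : ph b 0 + Φ.eval 0 ≠ 0 := by rw [ph_zero, he0]; norm_num
  have hψ0 : DifferentiableAt ℂ ψ 0 := DifferentiableAt.div q.differentiableAt.neg hs0 hne
  refine ⟨fun u => if u = 0 then ψ 0 else (ph b u - Φ.eval u) / u ^ M, fun u hu => ?_,
    fun u hu => ?_⟩
  · rcases eq_or_ne u 0 with rfl | hu0
    · refine hψ0.congr_of_eventuallyEq ?_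
      filter_upwards [hs0.continuousAt.eventually_ne hne] with v hv
      rcases eq_or_ne v 0 with rfl | hv0
      · simp
      · rw [if_neg hv0, hψ]
        have h1 := congrArg (eval v) hq
        simp only [eval_sub, eval_pow, eval_mul, eval_X] at h1
        rw [← ph_sq] at h1
        have h2 : v ^ M ≠ 0 := pow_ne_zero _ hv0
        simp only
        rw [div_eq_div_iff h2 hv]
        linear_combination -h1
    · have h1 : DifferentiableAt ℂ (fun v => (ph b v - Φ.eval v) / v ^ M) u :=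
        DifferentiableAt.div ((ph_diff_disc b hb u hu).sub Φ.differentiableAt) (by fun_prop)
          (pow_ne_zero _ hu0)
      refine h1.congr_of_eventuallyEq ?_
      filter_upwards [isOpen_ne.mem_nhds hu0] with v hv
      rw [if_neg hv]
  · simp only [if_neg hu]
    have h2 : u ^ M ≠ 0 := pow_ne_zero _ hu
    field_simp
    ring

lemma avg_ph (b : Multiset ℂ) (hb : ∀ w ∈ b, ‖w‖ < 1) (Φ : ℂ[X]) (M : ℕ)
    (h0 : Φ.coeff 0 = 1) (hd : X ^ M ∣ Φ ^ 2 - lin b) (m : ℕ) (hm : m < M) :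
    circleAverage (fun z : ℂ => z ^ m * ph b z⁻¹) 0 1 = Φ.coeff m := by
  obtain ⟨E, hE, hE'⟩ := exists_rem b hb Φ M h0 hd
  obtain ⟨k, rfl⟩ := Nat.exists_eq_add_of_lt hm
  have h1 : circleAverage (fun z : ℂ => z ^ m * ph b z⁻¹) 0 1 =
      circleAverage (fun u : ℂ => u⁻¹ ^ m * ph b u) 0 1 := by
    rw [← circleAverage_zero_one_congr_inv (f := fun u : ℂ => u⁻¹ ^ m * ph b u)]
    simp only [inv_inv]
  have h2 : circleAverage (fun u : ℂ => u⁻¹ ^ m * ph b u) 0 1 =
      circleAverage (fun u : ℂ => u⁻¹ ^ m * Φ.eval u + u ^ (k + 1) * E u) 0 1 := by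
    refine circleAverage_congr_sphere fun u hu => ?_
    have hu0 := sph_ne hu
    simp only [hE' u hu0, pow_add, inv_pow]
    field_simp
  have hd2 : ∀ u : ℂ, ‖u‖ ≤ 1 → DifferentiableAt ℂ (fun u : ℂ => u ^ (k + 1) * E u) u :=
    fun u hu => DifferentiableAt.mul (by fun_prop) (hE u hu)
  rw [h1, h2, circleAverage_fun_add, avg_poly, avg_diff _ hd2]
  · simp
  · refine ci_of_cont _ fun u hu => ?_
    have hu0 : u ≠ 0 := by rintro rfl; simp at hu
    exact ((continuousAt_inv₀ hu0).pow m).mul Φ.continuous.continuousAt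
  · exact ci_of_cont _ fun u hu => (hd2 u hu.le).continuousAt

/-- The integrand. -/
noncomputable def FF (b : Multiset ℂ) (f : ℂ[X]) (z : ℂ) : ℂ :=
  z ^ (b.card + 1) * f.eval z * ph b z⁻¹

lemma ph_inv_cont (b : Multiset ℂ) (hb : ∀ w ∈ b, ‖w‖ < 1) (z : ℂ) (hz : ‖z‖ = 1) :
    ContinuousAt (fun z : ℂ => ph b z⁻¹) z := by
  have hz0 : z ≠ 0 := by rintro rfl; simp at hz
  exact ContinuousAt.comp (f := fun z : ℂ => z⁻¹)
    (ph_diff_disc b hb z⁻¹ (by simp [hz])).continuousAt (continuousAt_inv₀ hz0)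

lemma avg_FF (b : Multiset ℂ) (hb : ∀ w ∈ b, ‖w‖ < 1) (Φ : ℂ[X]) (M : ℕ)
    (h0 : Φ.coeff 0 = 1) (hd : X ^ M ∣ Φ ^ 2 - lin b) (f : ℂ[X])
    (hf : f.natDegree + b.card + 1 < M) :
    circleAverage (FF b f) 0 1 = f.sum fun k a => a * Φ.coeff (k + b.card + 1) := by
  have h1 : FF b f = fun z => ∑ k ∈ f.support, f.coeff k • (z ^ (k + b.card + 1) * ph b z⁻¹) := by
    funext z
    rw [FF, eval_eq_sum, Polynomial.sum_def, Finset.mul_sum, Finset.sum_mul]
    refine Finset.sum_congr rfl fun k _ => ?_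
    rw [smul_eq_mul]; ring
  rw [h1, circleAverage_fun_sum, Polynomial.sum_def]
  · refine Finset.sum_congr rfl fun k hk => ?_
    rw [circleAverage_fun_smul, avg_ph b hb Φ M h0 hd, smul_eq_mul]
    have := le_natDegree_of_mem_supp k hk
    omega
  · intro k _
    refine ci_of_cont _ fun u hu => ?_
    exact ContinuousAt.const_smul
      (ContinuousAt.mul (f := fun z : ℂ => z ^ (k + b.card + 1)) (by fun_prop)
        (ph_inv_cont b hb u hu)) (f.coeff k)

/-- Covering an interval by good stretches and short bad stretches. -/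
lemma cover (g : ℝ → ℂ) (hg : Continuous g) (K ε A B : ℝ) (hK : 0 ≤ K) (hε : 0 < ε)
    (S : Finset ℝ) (N : ℝ → Prop)
    (h1 : ∀ θ ∈ S, ∀ t, |t - θ| ≤ ε → N t) (h2 : ∀ t, N t → ‖g t‖ ≤ K)
    (h3 : ∀ a b, A ≤ a → a ≤ b → b ≤ B → N a → N b → (∀ θ ∈ S, θ ∉ Set.Icc a b) →
      ‖∫ t in a..b, g t‖ ≤ K * ((b - a) + 2)) :
    ∀ (n : ℕ) (a b : ℝ), (S.filter fun θ => a ≤ θ ∧ θ ≤ b).card ≤ n → A ≤ a → a ≤ b → b ≤ B →
      N a → N b → ‖∫ t in a..b, g t‖ ≤ K * ((b - a) * (1 + 1 / ε) + 2) := by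
  have hε' : 0 < 1 / ε := by positivity
  have base : ∀ a b, A ≤ a → a ≤ b → b ≤ B → N a → N b → (∀ θ ∈ S, θ ∉ Set.Icc a b) →
      ‖∫ t in a..b, g t‖ ≤ K * ((b - a) * (1 + 1 / ε) + 2) := by
    intro a b hA hab hB ha hb h
    refine (h3 a b hA hab hB ha hb h).trans (mul_le_mul_of_nonneg_left ?_ hK)
    nlinarith
  intro n
  induction n with
  | zero =>
    intro a b hc hA hab hB ha hb
    refine base a b hA hab hB ha hb fun θ hθ hm => ?_
    have : θ ∈ S.filter fun θ => a ≤ θ ∧ θ ≤ b := Finset.mem_filter.2 ⟨hθ, hm⟩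
    rw [Nat.le_zero, Finset.card_eq_zero] at hc
    simp [hc] at this
  | succ n ih =>
    intro a b hc hA hab hB ha hb
    by_cases h : ∀ θ ∈ S, θ ∉ Set.Icc a b
    · exact base a b hA hab hB ha hb h
    push Not at h
    obtain ⟨θ, hθ, hm⟩ := h
    have hmem : θ ∈ S.filter fun θ => a ≤ θ ∧ θ ≤ b := Finset.mem_filter.2 ⟨hθ, hm⟩
    have hi : ∀ x y : ℝ, IntervalIntegrable g MeasureTheory.volume x y :=
      fun x y => hg.intervalIntegrable x y
    have sub : ∀ x y : ℝ, a ≤ x → y ≤ b → ¬(x ≤ θ ∧ θ ≤ y) →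
        (S.filter fun θ => x ≤ θ ∧ θ ≤ y).card ≤ n := by
      intro x y hx hy hn
      have : (S.filter fun θ => x ≤ θ ∧ θ ≤ y) ⊂ S.filter fun θ => a ≤ θ ∧ θ ≤ b := by
        refine ⟨fun t ht => ?_, fun hs => ?_⟩
        · rw [Finset.mem_filter] at ht ⊢
          exact ⟨ht.1, hx.trans ht.2.1, ht.2.2.trans hy⟩
        · exact hn (Finset.mem_filter.1 (hs hmem)).2
      have := Finset.card_lt_card this
      omega
    have mid : ∀ x y : ℝ, θ - ε ≤ x → x ≤ y → y ≤ θ + ε → ‖∫ t in x..y, g t‖ ≤ K * (y - x) := by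
      intro x y hx hxy hy
      have := intervalIntegral.norm_integral_le_of_norm_le_const (a := x) (b := y) (C := K)
        (f := g) (fun t ht => by
          rw [Set.uIoc_of_le hxy] at ht
          exact h2 t (h1 θ hθ t (abs_le.2 ⟨by linarith [ht.1], by linarith [ht.2]⟩)))
      rwa [abs_of_nonneg (by linarith)] at this
    have hNl : N (θ - ε) := h1 θ hθ _ (by rw [abs_le]; constructor <;> linarith)
    have hNr : N (θ + ε) := h1 θ hθ _ (by rw [abs_le]; constructor <;> linarith)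
    have hεε : ε * (1 / ε) = 1 := by field_simp
    obtain ⟨hm1, hm2⟩ := hm
    rcases le_or_gt (θ - ε) a with hl | hl <;> rcases le_or_gt b (θ + ε) with hr | hr
    · refine (mid a b hl hab hr).trans (mul_le_mul_of_nonneg_left ?_ hK)
      nlinarith
    · rw [← intervalIntegral.integral_add_adjacent_intervals (hi a (θ + ε)) (hi (θ + ε) b)]
      have e1 := mid a (θ + ε) hl (by linarith) le_rfl
      have e2 := ih (θ + ε) b (sub _ _ (by linarith) le_rfl (by intro h; linarith [h.1]))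
        (by linarith) hr.le hB hNr hb
      refine (norm_add_le _ _).trans ((add_le_add e1 e2).trans ?_)
      rw [← mul_add]
      refine mul_le_mul_of_nonneg_left ?_ hK
      have : 0 ≤ (θ + ε - a) * (1 / ε) := mul_nonneg (by linarith) hε'.le
      nlinarith
    · rw [← intervalIntegral.integral_add_adjacent_intervals (hi a (θ - ε)) (hi (θ - ε) b)]
      have e1 := ih a (θ - ε) (sub _ _ le_rfl (by linarith) (by intro h; linarith [h.2]))
        hA hl.le (by linarith) ha hNl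
      have e2 := mid (θ - ε) b le_rfl (by linarith) hr
      refine (norm_add_le _ _).trans ((add_le_add e1 e2).trans ?_)
      rw [← mul_add]
      refine mul_le_mul_of_nonneg_left ?_ hK
      have : 0 ≤ (b - (θ - ε)) * (1 / ε) := mul_nonneg (by linarith) hε'.le
      nlinarith
    · rw [← intervalIntegral.integral_add_adjacent_intervals (hi a (θ - ε)) (hi (θ - ε) b),
        ← intervalIntegral.integral_add_adjacent_intervals (hi (θ - ε) (θ + ε)) (hi (θ + ε) b)]
      have e1 := ih a (θ - ε) (sub _ _ le_rfl (by linarith) (by intro h; linarith [h.2]))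
        hA hl.le (by linarith) ha hNl
      have e2 := mid (θ - ε) (θ + ε) le_rfl (by linarith) le_rfl
      have e3 := ih (θ + ε) b (sub _ _ (by linarith) le_rfl (by intro h; linarith [h.1]))
        (by linarith) hr.le hB hNr hb
      refine (norm_add_le _ _).trans
        ((add_le_add e1 ((norm_add_le _ _).trans (add_le_add e2 e3))).trans ?_)
      rw [← mul_add, ← mul_add]
      refine mul_le_mul_of_nonneg_left ?_ hK
      nlinarith

lemma norm_exp_xt (x t : ℝ) : ‖Complex.exp (x + t * Complex.I)‖ = Real.exp x := by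
  rw [Complex.norm_exp]; simp

lemma hedge_exp (Ω : Finset ℂ) (ε x t θ : ℝ) (hx : x ≤ 0) (ht : |t - θ| ≤ ε)
    (hθ : Complex.exp (θ * Complex.I) ∈ Ω) : Hedge Ω ε (Complex.exp (x + t * Complex.I)) := by
  have h1 : Real.exp x ≤ 1 := Real.exp_le_one_iff.2 hx
  refine ⟨by rw [norm_exp_xt]; exact h1, ?_⟩
  rw [norm_exp_xt]
  rcases le_or_gt (Real.exp x) (1 - ε) with h | h
  · exact Or.inl h
  refine Or.inr ⟨_, hθ, ?_⟩
  have h2 : Complex.exp (x + t * Complex.I) - Complex.exp (θ * Complex.I) =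
      ((Real.exp x - 1 : ℝ) : ℂ) * Complex.exp (t * Complex.I) +
        Complex.exp (θ * Complex.I) * (Complex.exp (Complex.I * ((t - θ : ℝ) : ℂ)) - 1) := by
    have : Complex.exp (t * Complex.I) =
        Complex.exp (θ * Complex.I) * Complex.exp (Complex.I * ((t - θ : ℝ) : ℂ)) := by
      rw [← Complex.exp_add]; congr 1; push_cast; ring
    rw [Complex.exp_add, mul_sub, ← this]
    push_cast
    ring
  rw [h2]
  refine (norm_add_le _ _).trans ?_
  rw [norm_mul, norm_mul, Complex.norm_exp_ofReal_mul_I, Complex.norm_exp_ofReal_mul_I,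
    Complex.norm_real, Real.norm_eq_abs, abs_of_nonpos (by linarith)]
  have h3 := Real.norm_exp_I_mul_ofReal_sub_one_le (x := t - θ)
  rw [Real.norm_eq_abs] at h3
  linarith

lemma FF_bound (b : Multiset ℂ) (hb : ∀ w ∈ b, ‖w‖ < 1) (f : ℂ[X]) (B : ℝ) (z : ℂ)
    (hz : z ≠ 0) (hz1 : ‖z‖ ≤ 1) (hf : ‖f.eval z‖ ≤ B) : ‖FF b f z‖ ≤ 2 ^ b.card * B := by
  have h1 : FF b f z = z * (z ^ b.card * ph b z⁻¹) * f.eval z := by rw [FF]; ring
  rw [h1, norm_mul, norm_mul]
  have h2 := ph_bound b hb z hz hz1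
  refine mul_le_mul ?_ hf (norm_nonneg _) (by positivity)
  calc ‖z‖ * ‖z ^ b.card * ph b z⁻¹‖ ≤ 1 * 2 ^ b.card :=
        mul_le_mul hz1 h2 (norm_nonneg _) zero_le_one
    _ = _ := one_mul _

lemma slit_of_arg (w : ℂ) (x t : ℝ) (h1 : -π < t) (h2 : t ≤ π) (h : w.arg ≠ t) :
    1 - w * (Complex.exp (x + t * Complex.I))⁻¹ ∈ Complex.slitPlane := by
  by_contra hn
  rw [Complex.mem_slitPlane_iff] at hn
  push Not at hn
  obtain ⟨hre, him⟩ := hn
  set v := w * (Complex.exp (x + t * Complex.I))⁻¹ with hv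
  simp only [Complex.sub_re, Complex.one_re, Complex.sub_im, Complex.one_im] at hre him
  have hv' : v = (v.re : ℂ) := Complex.ext (by simp) (by simp; linarith)
  have hw : w = ((v.re * Real.exp x : ℝ) : ℂ) * Complex.exp (t * Complex.I) := by
    have h3 : w = v * Complex.exp (x + t * Complex.I) := by
      rw [hv, mul_assoc, inv_mul_cancel₀ (Complex.exp_ne_zero _), mul_one]
    rw [h3, Complex.exp_add]
    push_cast
    rw [← hv']
    ring
  apply h
  have hpos : 0 < v.re * Real.exp x := mul_pos (by linarith) (Real.exp_pos x)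
  rw [hw, Complex.arg_real_mul _ hpos, Complex.arg_exp_mul_I, toIocMod_eq_self]
  exact ⟨h1, by linarith⟩

lemma FF_exp_diff (b : Multiset ℂ) (f : ℂ[X]) (ζ : ℂ)
    (h : ∀ w ∈ b, 1 - w * (Complex.exp ζ)⁻¹ ∈ Complex.slitPlane) :
    DifferentiableAt ℂ (fun ζ => FF b f (Complex.exp ζ)) ζ := by
  unfold FF
  refine DifferentiableAt.mul (DifferentiableAt.mul (by fun_prop) ?_) ?_
  · exact f.differentiableAt.comp ζ Complex.differentiableAt_exp
  · exact DifferentiableAt.comp (g := ph b) (f := fun ζ => (Complex.exp ζ)⁻¹) ζ (ph_diff b _ h)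
      (Complex.differentiableAt_exp.inv (Complex.exp_ne_zero ζ))

lemma rect (h : ℂ → ℂ) (K a b : ℝ) (hab : a ≤ b)
    (hd : ∀ x t : ℝ, a ≤ t → t ≤ b → DifferentiableAt ℂ h (x + t * Complex.I))
    (ha : ∀ x : ℝ, x ≤ 0 → ‖h (x + a * Complex.I)‖ ≤ K)
    (hb : ∀ x : ℝ, x ≤ 0 → ‖h (x + b * Complex.I)‖ ≤ K)
    (hl : ∀ t : ℝ, ‖h ((-1 : ℝ) + t * Complex.I)‖ ≤ K) :
    ‖∫ t in a..b, h ((0 : ℝ) + t * Complex.I)‖ ≤ K * ((b - a) + 2) := by
  have H := Complex.integral_boundary_rect_eq_zero_of_differentiableOn h ⟨-1, a⟩ ⟨0, b⟩ (by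
    intro ζ hζ
    rw [Complex.mem_reProdIm] at hζ
    have h2 := hζ.2
    simp only [Set.uIcc_of_le hab] at h2
    have := hd ζ.re ζ.im h2.1 h2.2
    rw [Complex.re_add_im] at this
    exact this.differentiableWithinAt)
  simp only at H
  have e1 := intervalIntegral.norm_integral_le_of_norm_le_const (a := -1) (b := 0) (C := K)
    (f := fun x : ℝ => h (x + a * Complex.I)) (fun x hx => ha x (by
      rw [Set.uIoc_of_le (by norm_num)] at hx; exact hx.2))
  have e2 := intervalIntegral.norm_integral_le_of_norm_le_const (a := -1) (b := 0) (C := K)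
    (f := fun x : ℝ => h (x + b * Complex.I)) (fun x hx => hb x (by
      rw [Set.uIoc_of_le (by norm_num)] at hx; exact hx.2))
  have e3 := intervalIntegral.norm_integral_le_of_norm_le_const (a := a) (b := b) (C := K)
    (f := fun t : ℝ => h ((-1 : ℝ) + t * Complex.I)) (fun t _ => hl t)
  rw [abs_of_nonneg (by linarith)] at e1 e2 e3
  set I1 := ∫ x : ℝ in (-1)..0, h (x + a * Complex.I)
  set I2 := ∫ x : ℝ in (-1)..0, h (x + b * Complex.I)
  set I3 := ∫ t : ℝ in a..b, h ((0 : ℝ) + t * Complex.I)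
  set I4 := ∫ t : ℝ in a..b, h ((-1 : ℝ) + t * Complex.I)
  have h5 : Complex.I * I3 = I2 - I1 + Complex.I * I4 := by
    simp only [smul_eq_mul] at H
    linear_combination H
  have h6 : ‖I3‖ = ‖I2 - I1 + Complex.I * I4‖ := by rw [← h5]; simp
  have h7 := norm_add_le (I2 - I1) (Complex.I * I4)
  have h8 := norm_sub_le I2 I1
  rw [norm_mul, Complex.norm_I] at h7
  rw [h6]
  linarith

theorem sfun : SFun := by
  classical
  intro b ε hε hε2 hb
  set Ω : Finset ℂ := insert (-1) (b.toFinset.image fun w => Complex.exp (w.arg * Complex.I))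
    with hΩ
  refine ⟨Ω, ?_, ?_, ?_⟩
  · refine (Finset.card_insert_le _ _).trans (Nat.succ_le_succ ?_)
    exact Finset.card_image_le.trans (Multiset.toFinset_card_le b)
  · intro ω hω
    rcases Finset.mem_insert.1 hω with rfl | hω
    · simp
    · obtain ⟨w, _, rfl⟩ := Finset.mem_image.1 hω
      exact Complex.norm_exp_ofReal_mul_I _
  intro Φ M h0 hd f B hf hB
  have hB0 : 0 ≤ B := (norm_nonneg _).trans (hB 0 ⟨by simp, Or.inl (by simp; linarith)⟩)
  set K : ℝ := 2 ^ b.card * B with hK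
  have hK0 : 0 ≤ K := by positivity
  set h : ℂ → ℂ := fun ζ => FF b f (Complex.exp ζ) with hh
  set S : Finset ℝ := insert (-π) (insert π (b.toFinset.image Complex.arg)) with hS
  have hSΩ : ∀ θ ∈ S, Complex.exp (θ * Complex.I) ∈ Ω := by
    intro θ hθ
    rcases Finset.mem_insert.1 hθ with rfl | hθ
    · have : Complex.exp (((-π : ℝ) : ℂ) * Complex.I) = -1 := by
        push_cast
        rw [neg_mul, Complex.exp_neg, Complex.exp_pi_mul_I]; norm_num
      rw [this]; exact Finset.mem_insert_self _ _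
    rcases Finset.mem_insert.1 hθ with rfl | hθ
    · rw [Complex.exp_pi_mul_I]; exact Finset.mem_insert_self _ _
    · obtain ⟨w, hw, rfl⟩ := Finset.mem_image.1 hθ
      exact Finset.mem_insert_of_mem (Finset.mem_image.2 ⟨w, hw, rfl⟩)
  have hbd : ∀ ζ : ℂ, Hedge Ω ε (Complex.exp ζ) → ‖h ζ‖ ≤ K := fun ζ hζ =>
    FF_bound b hb f B _ (Complex.exp_ne_zero ζ) hζ.1 (hB _ hζ)
  have hg : Continuous fun t : ℝ => h ((0 : ℝ) + t * Complex.I) := by
    rw [continuous_iff_continuousAt]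
    intro t
    have h1 : ContinuousAt (FF b f) (Complex.exp ((0 : ℝ) + t * Complex.I)) := by
      unfold FF
      exact ContinuousAt.mul (ContinuousAt.mul (by fun_prop) f.continuous.continuousAt)
        (ph_inv_cont b hb _ (by rw [norm_exp_xt]; simp))
    exact ContinuousAt.comp (f := fun t : ℝ => Complex.exp ((0 : ℝ) + t * Complex.I)) h1
      (by fun_prop)
  have hpi := Real.pi_pos
  have hN : ∀ θ ∈ S, ∀ t : ℝ, |t - θ| ≤ ε → ∀ x : ℝ, x ≤ 0 → ‖h (x + t * Complex.I)‖ ≤ K :=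
    fun θ hθ t ht x hx => hbd _ (hedge_exp Ω ε x t θ hx ht (hSΩ θ hθ))
  have hm1 : -π ∈ S := Finset.mem_insert_self _ _
  have hm2 : π ∈ S := Finset.mem_insert_of_mem (Finset.mem_insert_self _ _)
  have main := cover (fun t : ℝ => h ((0 : ℝ) + t * Complex.I)) hg K ε (-π) π hK0 hε S
    (fun t => ∀ x : ℝ, x ≤ 0 → ‖h (x + t * Complex.I)‖ ≤ K) hN (fun t ht => ht 0 le_rfl)
    (by
      intro a c hA hac hc ha hc' hno
      refine rect h K a c hac ?_ ha hc' ?_
      · intro x t h1 h2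
        refine FF_exp_diff b f _ fun w hw => slit_of_arg w x t ?_ (by linarith) ?_
        · rcases (hA.trans h1).lt_or_eq with h3 | h3
          · exact h3
          · exact absurd ⟨h3 ▸ h1, h3 ▸ h2⟩ (hno _ hm1)
        · intro h3
          refine hno w.arg (Finset.mem_insert_of_mem (Finset.mem_insert_of_mem
            (Finset.mem_image.2 ⟨w, Multiset.mem_toFinset.2 hw, rfl⟩))) ⟨h3 ▸ h1, h3 ▸ h2⟩
      · intro t
        have h1 : Real.exp (-1) ≤ 1 / 2 := by
          have h2 := Real.add_one_le_exp (1 : ℝ)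
          rw [Real.exp_neg, inv_eq_one_div]
          exact one_div_le_one_div_of_le (by norm_num) (by linarith)
        refine hbd _ ⟨?_, Or.inl ?_⟩ <;> rw [norm_exp_xt] <;> linarith)
    _ (-π) π le_rfl le_rfl (by linarith) le_rfl (hN _ hm1 _ (by simp [hε.le]))
    (hN _ hm2 _ (by simp [hε.le]))
  rw [← avg_FF b hb Φ M h0 hd f hf, circleAverage_eq_integral_add (-π),
    intervalIntegral.integral_comp_add_right (fun θ => FF b f (circleMap 0 1 θ))]
  have e1 : (0 : ℝ) + -π = -π := by ring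
  have e2 : 2 * π + -π = π := by ring
  have e3 : (fun θ : ℝ => FF b f (circleMap 0 1 θ)) = fun t : ℝ => h ((0 : ℝ) + t * Complex.I) := by
    funext t
    simp [hh, circleMap]
  rw [e1, e2, e3, norm_smul, Real.norm_eq_abs, abs_of_pos (by positivity)]
  refine (mul_le_mul_of_nonneg_left main (by positivity)).trans ?_
  have e4 : 2 ^ b.card * (10 / ε) * B = (2 * π)⁻¹ * (K * (2 * π * (10 * (1 / ε)))) := by
    rw [hK]; field_simp
  rw [e4]
  refine mul_le_mul_of_nonneg_left (mul_le_mul_of_nonneg_left ?_ hK0) (by positivity)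
  have e5 : 2 ≤ 1 / ε := by rw [le_div_iff₀ hε]; linarith
  have e6 := Real.pi_gt_three
  nlinarith

end Pool.Agent.MP_670f9a_nt.H76
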