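import Pool.Agent.MP_670f9a_nt.H13.Spec

/-!
Transfer of a bound for the inverse roots through power sums and the positivity of the Fejer
kernel.
-/

namespace Pool.Agent.MP_670f9a_nt.H76

open Polynomial Pool.Agent.MP_670f9a_nt.H13 Finset

theorem fejer_pos (u : ℂ) (hu : ‖u‖ ≤ 1) (n : ℕ) :
    ‖∑ k ∈ range n, u ^ k‖ ^ 2 ≤ ∑ j ∈ range n, (1 + 2 * (∑ k ∈ range j, u ^ (k + 1)).re) := by
  induction n with
  | zero => simp
  | succ n ih =>
    rw [sum_range_succ (fun j => 1 + 2 * (∑ k ∈ range j, u ^ (k + 1)).re), sum_range_succ',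
      pow_zero]
    have e : ∑ k ∈ range n, u ^ (k + 1) = u * ∑ k ∈ range n, u ^ k := by
      rw [mul_sum]
      exact sum_congr rfl fun k _ => pow_succ' u k
    have h1 : ‖∑ k ∈ range n, u ^ (k + 1)‖ ≤ ‖∑ k ∈ range n, u ^ k‖ := by
      rw [e, norm_mul]
      exact mul_le_of_le_one_left (norm_nonneg _) hu
    have h2 := pow_le_pow_left₀ (norm_nonneg _) h1 2
    generalize ∑ k ∈ range n, u ^ (k + 1) = a at h2 ⊢
    have h3 : ‖a + 1‖ ^ 2 = ‖a‖ ^ 2 + 1 + 2 * a.re := by
      rw [Complex.sq_norm, Complex.sq_norm, Complex.normSq_add]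
      simp
    linarith

theorem geom_le (η : ℝ) (hη : 0 < η) (j : ℕ) :
    ∑ k ∈ range j, (1 / (1 + η)) ^ (k + 1) ≤ 1 / η := by
  induction j with
  | zero => simp [hη.le]
  | succ j ih =>
    rw [sum_range_succ']
    have e : ∑ k ∈ range j, (1 / (1 + η)) ^ (k + 1 + 1) =
        1 / (1 + η) * ∑ k ∈ range j, (1 / (1 + η)) ^ (k + 1) := by
      rw [mul_sum]
      exact sum_congr rfl fun k _ => pow_succ' _ _
    have h1 : 1 / (1 + η) * ∑ k ∈ range j, (1 / (1 + η)) ^ (k + 1) ≤ 1 / (1 + η) * (1 / η) :=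
      mul_le_mul_of_nonneg_left ih (by positivity)
    have h2 : 1 / (1 + η) * (1 / η) + (1 / (1 + η)) ^ (0 + 1) = 1 / η := by
      rw [zero_add, pow_one]
      field_simp
    rw [e]
    linarith

/-- Small power sums localise the numbers. -/
theorem fejer_root {ι : Type} [Fintype ι] (w : ι → ℂ) (B : ℝ) (K : ℕ) (hB : 0 < B)
    (hK : Fintype.card ι ≤ K)
    (h : ∀ k, k < K → ‖∑ i, w i ^ (k + 1)‖ ≤ Fintype.card ι * B ^ (k + 1)) (i : ι) :
    ‖w i‖ ≤ B * (1 + 2 * Fintype.card ι / (K + 1 - Fintype.card ι)) := by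
  classical
  obtain ⟨i0, -, h0⟩ := exists_max_image univ (fun i => ‖w i‖) ⟨i, mem_univ i⟩
  refine (h0 i (mem_univ i)).trans ?_
  set d : ℝ := (Fintype.card ι : ℝ) with hd
  have hd0 : 0 ≤ d := Nat.cast_nonneg _
  have hdK : d ≤ K := by rw [hd]; exact_mod_cast hK
  have hp : 0 < (K : ℝ) + 1 - d := by linarith
  by_contra hcon
  rw [not_le] at hcon
  set η : ℝ := ‖w i0‖ / B - 1 with hη
  have hw : ‖w i0‖ = B * (1 + η) := by rw [hη]; field_simp; ring
  have hlt : 2 * d / (K + 1 - d) < η := by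
    rw [hw] at hcon
    linarith [lt_of_mul_lt_mul_left hcon hB.le]
  have η0 : 0 < η := lt_of_le_of_lt (by positivity) hlt
  have w0 : 0 < ‖w i0‖ := by rw [hw]; positivity
  have wne : w i0 ≠ 0 := norm_pos_iff.1 w0
  let F : ι → ℝ := fun i =>
    ∑ j ∈ range (K + 1), (1 + 2 * (∑ k ∈ range j, (w i / w i0) ^ (k + 1)).re)
  have F0 : ∀ i, 0 ≤ F i := fun i =>
    (sq_nonneg _).trans (fejer_pos _ (by
      rw [norm_div, div_le_one w0]; exact h0 i (mem_univ i)) (K + 1))
  have F1 : ((K : ℝ) + 1) ^ 2 ≤ F i0 := by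
    have := fejer_pos (w i0 / w i0) (by rw [div_self wne, norm_one]) (K + 1)
    refine le_trans (le_of_eq ?_) this
    rw [div_self wne]
    simp only [one_pow, sum_const, card_range, nsmul_eq_mul, mul_one, Complex.norm_natCast]
    push_cast
    rfl
  have F2 : F i0 ≤ ∑ i, F i := single_le_sum (fun i _ => F0 i) (mem_univ i0)
  have F3 : ∑ i, F i ≤ (K + 1) * (d + 2 * (d * (1 / η))) := by
    rw [sum_comm]
    refine (sum_le_card_nsmul _ _ (d + 2 * (d * (1 / η))) fun j hj => ?_).trans (le_of_eq ?_)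
    · rw [sum_add_distrib, ← mul_sum, ← Complex.re_sum, sum_comm, sum_const, card_univ,
        nsmul_eq_mul, mul_one]
      refine add_le_add le_rfl (mul_le_mul_of_nonneg_left ?_ (by norm_num))
      refine (Complex.re_le_norm _).trans ((norm_sum_le _ _).trans ?_)
      refine le_trans ?_ (mul_le_mul_of_nonneg_left (geom_le η η0 j) hd0)
      rw [mul_sum]
      refine sum_le_sum fun k hk => ?_
      have hk' : k < K := by
        rw [mem_range] at hk hj
        omega
      simp only [div_pow]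
      rw [← sum_div, norm_div, norm_pow, div_le_iff₀ (by positivity), hw]
      refine (h k hk').trans (le_of_eq ?_)
      rw [mul_pow, one_pow]
      field_simp
    · rw [card_range, nsmul_eq_mul]
      push_cast
      rfl
  have F4 : (K : ℝ) + 1 ≤ d + 2 * (d * (1 / η)) := by
    have h1 := (F1.trans F2).trans F3
    rw [sq] at h1
    exact le_of_mul_le_mul_left h1 (by positivity)
  rw [div_lt_iff₀ hp] at hlt
  have h2 : η * (K + 1 - d) ≤ η * (2 * (d * (1 / η))) :=
    mul_le_mul_of_nonneg_left (by linarith) η0.le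
  have h3 : η * (2 * (d * (1 / η))) = 2 * d := by field_simp
  linarith

theorem psum_lin (s : Multiset ℂ) :
    (PowerSeries.mk fun k => (s.map fun w => w ^ (k + 1)).sum) * (lin s : ℂ[X]) =
      -((derivative (lin s) : ℂ[X]) : PowerSeries ℂ) := by
  induction s using Multiset.induction_on with
  | empty =>
    have : (PowerSeries.mk fun k => ((0 : Multiset ℂ).map fun w => w ^ (k + 1)).sum) = 0 := by
      ext k; simp
    rw [this]
    simp [lin]
  | cons w s ih =>
    have e1 : lin (w ::ₘ s) = (1 - C w * X) * lin s := by simp [lin]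
    have e2 : (PowerSeries.mk fun k => ((w ::ₘ s).map fun w => w ^ (k + 1)).sum) =
        (PowerSeries.mk fun k => w ^ (k + 1)) +
          PowerSeries.mk fun k => (s.map fun w => w ^ (k + 1)).sum := by
      ext k; simp
    have e3 : (PowerSeries.mk fun k => w ^ (k + 1)) * (1 - PowerSeries.C w * PowerSeries.X) =
        PowerSeries.C w := by
      ext k
      rw [mul_sub, mul_one, ← mul_assoc, map_sub]
      cases k with
      | zero => simp
      | succ k =>
        rw [PowerSeries.coeff_succ_mul_X, PowerSeries.coeff_mul_C, PowerSeries.coeff_mk,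
          PowerSeries.coeff_mk, PowerSeries.coeff_C, if_neg (Nat.succ_ne_zero k), ← pow_succ,
          sub_self]
    rw [e1, e2, derivative_mul]
    simp only [derivative_sub, derivative_one, derivative_mul, derivative_C, derivative_X,
      zero_mul, mul_one, zero_add, zero_sub, Polynomial.coe_mul, Polynomial.coe_add,
      Polynomial.coe_sub, Polynomial.coe_neg, Polynomial.coe_one, Polynomial.coe_C,
      Polynomial.coe_X]
    linear_combination ((lin s : ℂ[X]) : PowerSeries ℂ) * e3 +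
      (1 - PowerSeries.C w * PowerSeries.X) * ih

/-- The power sums of the inverse roots are polynomials of small degree. -/
theorem exists_psum (G : ℤ[X][X]) (L d : ℕ) (h0 : G.coeff 0 = 1) (hW : Wt L d G) :
    ∃ p : ℕ → ℤ[X], (∀ k, d * (p k).natDegree ≤ L * (k + 1)) ∧
      ∀ (x : ℂ) (s : Multiset ℂ), G.map (ev x) = lin s → ∀ k,
        ev x (p k) = (s.map fun w => w ^ (k + 1)).sum := by
  obtain ⟨P, hP⟩ : ∃ P : PowerSeries ℤ[X], P * (G : PowerSeries ℤ[X]) =
      -((derivative G : ℤ[X][X]) : PowerSeries ℤ[X]) := by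
    refine ⟨-((derivative G : ℤ[X][X]) : PowerSeries ℤ[X]) *
      PowerSeries.invOfUnit (G : PowerSeries ℤ[X]) 1, ?_⟩
    rw [mul_assoc, PowerSeries.invOfUnit_mul _ _ (by simpa using h0), mul_one]
  refine ⟨fun k => PowerSeries.coeff k P, fun k => ?_, fun x s hs k => ?_⟩
  · induction k using Nat.strong_induction_on with
    | _ k ih =>
    have e := congrArg (PowerSeries.coeff k) hP
    rw [PowerSeries.coeff_mul, map_neg, coeff_coe, coeff_derivative,
      ← Finset.add_sum_erase _ _ (show (k, 0) ∈ antidiagonal k by simp), coeff_coe, h0,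
      mul_one] at e
    have e' := eq_sub_of_add_eq e
    show d * (PowerSeries.coeff k P).natDegree ≤ L * (k + 1)
    rcases Nat.eq_zero_or_pos d with rfl | hd
    · simp
    rw [mul_comm, ← Nat.le_div_iff_mul_le hd, e']
    refine (natDegree_sub_le _ _).trans (max_le ?_ ?_)
    · rw [natDegree_neg]
      refine natDegree_mul_le.trans ?_
      have h1 : ((k : ℤ[X]) + 1).natDegree = 0 := by
        exact_mod_cast natDegree_natCast (R := ℤ) (k + 1)
      rw [h1, add_zero, Nat.le_div_iff_mul_le hd, mul_comm]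
      exact hW (k + 1)
    · refine natDegree_sum_le_of_forall_le _ _ fun q hq => ?_
      rw [mem_erase, Finset.HasAntidiagonal.mem_antidiagonal] at hq
      have hlt : q.1 < k := by
        by_contra hc
        exact hq.1 (Prod.ext (by omega) (by omega))
      refine natDegree_mul_le.trans ?_
      rw [Nat.le_div_iff_mul_le hd, coeff_coe]
      have h1 : d * (PowerSeries.coeff q.1 P).natDegree ≤ L * (q.1 + 1) := ih q.1 hlt
      have h2 := hW q.2
      rw [← hq.2]
      nlinarith
  · have e := congrArg (PowerSeries.map (ev x)) hP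
    rw [map_mul, map_neg, ← polynomial_map_coe, ← polynomial_map_coe, ← derivative_map, hs,
      ← psum_lin] at e
    have hne : ((lin s : ℂ[X]) : PowerSeries ℂ) ≠ 0 := by
      rw [Ne, Polynomial.coe_eq_zero_iff, ← hs]
      intro h
      have := congrArg (coeff · 0) h
      simp [h0] at this
    have := congrArg (PowerSeries.coeff k) (mul_right_cancel₀ hne e)
    simpa using this

theorem ev_eq (a : ℂ) (c : ℤ[X]) : (c.map (Int.castRingHom ℂ)).eval a = ev a c := by
  rw [eval_map]
  rfl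

/-- Transfer of a bound for the inverse roots, without logarithm. -/
def SRoot2 : Prop := ∀ (G : ℤ[X][X]) (L d K S : ℕ) (Z : Set ℂ) (ρ Λ : ℝ) (x : ℂ),
  1 ≤ L → 1 ≤ d → G.coeff 0 = 1 → G.natDegree ≤ d → Wt L d G → 1 ≤ ρ → d ≤ K → K * L ≤ S * d →
  (∀ a ∈ Z, ∀ z : ℂ, (G.map (ev a)).eval z = 0 → 1 ≤ ρ * ‖z‖) →
  (∀ (f : ℂ[X]) (W : ℝ), f.natDegree ≤ S → (∀ a ∈ Z, ‖f.eval a‖ ≤ W) → ‖f.eval x‖ ≤ W * Λ) →
  1 ≤ Λ ∧ ∀ s : Multiset ℂ, G.map (ev x) = lin s → s.card = d → ∀ w ∈ s,
    ‖w‖ ≤ Real.exp (Real.log ρ + 2 * d / (K + 1 - d) + 2 * L / (S * d) * Real.log Λ)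

theorem sroot2 (h2 : SLin) : SRoot2 := by
  intro G L d K S Z ρ Λ x hL hd h0 hdeg hW hρ hK hS hZ hf
  have hΛ : 1 ≤ Λ := by simpa using hf 1 1 (by simp) (by simp)
  refine ⟨hΛ, fun s hs hc w hw => ?_⟩
  obtain ⟨p, hp, hm⟩ := exists_psum G L d h0 hW
  have S0 : 0 < S := by
    have : 0 < K * L := Nat.mul_pos (by omega) hL
    by_contra h
    rw [show S = 0 by omega, zero_mul] at hS
    omega
  have ρ0 : 0 < ρ := by linarith
  have lΛ : 0 ≤ Real.log Λ := Real.log_nonneg hΛ
  have dp : (0 : ℝ) < d := by exact_mod_cast hd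
  have Sp : (0 : ℝ) < S := by exact_mod_cast S0
  have hb : ∀ a ∈ Z, ∀ k, ‖ev a (p k)‖ ≤ d * ρ ^ (k + 1) := fun a ha k => by
    obtain ⟨t, ht, e⟩ := h2.1 (G.map (ev a)) d (by simp [h0]) (natDegree_map_le.trans hdeg)
    rw [hm a t e]
    refine (norm_multiset_sum_le _).trans ?_
    rw [← ht, ← nsmul_eq_mul]
    refine (Multiset.sum_le_card_nsmul _ (ρ ^ (k + 1)) fun u hu => ?_).trans (by simp)
    rw [Multiset.map_map] at hu
    obtain ⟨v, hv, rfl⟩ := Multiset.mem_map.1 hu
    rw [Function.comp_apply, norm_pow]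
    refine pow_le_pow_left₀ (norm_nonneg _) ?_ _
    by_cases v0 : v = 0
    · simp [v0, ρ0.le]
    · have := hZ a ha v⁻¹ (by rw [e, h2.2.2.1]; exact ⟨v, hv, mul_inv_cancel₀ v0⟩)
      rwa [norm_inv, ← div_eq_mul_inv, one_le_div (norm_pos_iff.2 v0)] at this
  set μ := Real.exp (2 * L / (S * d) * Real.log Λ) with hμ
  have μ0 : 0 < μ := Real.exp_pos _
  have key : ∀ k, k < K → ‖ev x (p k)‖ ≤ d * (ρ * μ) ^ (k + 1) := fun k hk => by
    have p0 : 0 < L * (k + 1) := by positivity
    have p1 : L * (k + 1) ≤ S * d := le_trans (by nlinarith) hS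
    set l := S * d / (L * (k + 1)) with hl
    have l1 : 1 ≤ l := Nat.div_pos p1 p0
    have l2 : l * (L * (k + 1)) ≤ S * d := Nat.div_mul_le_self _ _
    have l3 : S * d ≤ 2 * l * (L * (k + 1)) := by
      have := Nat.lt_mul_div_succ (S * d) p0
      nlinarith
    have hdg : (((p k).map (Int.castRingHom ℂ)) ^ l).natDegree ≤ S := by
      refine natDegree_pow_le.trans ((Nat.mul_le_mul_left _ natDegree_map_le).trans ?_)
      refine Nat.le_of_mul_le_mul_right ?_ hd
      calc l * (p k).natDegree * d = l * (d * (p k).natDegree) := by ring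
        _ ≤ l * (L * (k + 1)) := Nat.mul_le_mul_left _ (hp k)
        _ ≤ S * d := l2
    have := hf _ ((d * ρ ^ (k + 1)) ^ l) hdg fun a ha => by
      rw [eval_pow, ev_eq, norm_pow]
      exact pow_le_pow_left₀ (norm_nonneg _) (hb a ha k) _
    rw [eval_pow, ev_eq, norm_pow] at this
    refine le_of_pow_le_pow_left₀ (by omega : l ≠ 0) (by positivity) (this.trans ?_)
    rw [mul_pow ρ μ, ← mul_assoc, mul_pow _ (μ ^ (k + 1))]
    refine mul_le_mul_of_nonneg_left ?_ (by positivity)
    rw [← pow_mul, hμ, ← Real.exp_nat_mul]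
    refine (Real.exp_log (by linarith)).symm.le.trans (Real.exp_le_exp.2 ?_)
    have l4 : (S : ℝ) * d ≤ 2 * l * (L * (k + 1)) := by exact_mod_cast l3
    have : (((k + 1) * l : ℕ) : ℝ) * (2 * L / (S * d) * Real.log Λ) =
        2 * l * (L * (k + 1)) / (S * d) * Real.log Λ := by
      push_cast
      ring
    rw [this]
    exact le_mul_of_one_le_left lΛ ((one_le_div (by positivity)).2 l4)
  classical
  have hcard : Fintype.card s.ToType = d := by rw [Multiset.card_coe, hc]
  have hr := fejer_root (fun i : s.ToType => (i : ℂ)) (ρ * μ) K (by positivity) (hcard ▸ hK)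
    (fun k hk => by
      have e : ∑ i : s.ToType, (i : ℂ) ^ (k + 1) = (s.map fun w => w ^ (k + 1)).sum := by
        rw [← Multiset.map_univ s fun w => w ^ (k + 1)]
        rfl
      rw [e, ← hm x s hs, hcard]
      exact key k hk) ⟨w, ⟨0, Multiset.count_pos.2 hw⟩⟩
  rw [hcard] at hr
  refine le_trans hr ?_
  rw [Real.exp_add, Real.exp_add, Real.exp_log ρ0, ← hμ, mul_right_comm ρ _ μ]
  refine mul_le_mul_of_nonneg_left ?_ (by positivity)
  linarith [Real.add_one_le_exp (2 * d / (K + 1 - d) : ℝ)]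

end Pool.Agent.MP_670f9a_nt.H76
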