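import Pool.Agent.MP_670f9a_nt.H13.Core
import Pool.Agent.MP_670f9a_nt.H76.Fej

/-!
The radicand is a square at every point, under the weaker degree hypothesis.
-/

namespace Pool.Agent.MP_670f9a_nt.H76

open Polynomial Pool.Agent.MP_670f9a_nt.H13

/-- The radicand is a square at every point. -/
def SCore2 : Prop := ∀ (A : ℤ[X]) (G : ℤ[X][X]) (L d : ℕ) (r ρ : ℝ), A.Monic → Irreducible A →
  1 ≤ L → 1 ≤ d → G.coeff 0 = 1 → G.natDegree ≤ d → Wt L d G → 1 ≤ r → 1 ≤ ρ →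
  (∀ a : ℂ, aeval a A = 0 → ‖a‖ ≤ r) →
  (∀ a z : ℂ, aeval a A = 0 → (G.map (ev a)).eval z = 0 → 1 ≤ ρ * ‖z‖) →
  L * Real.log r ≤ 1 / 10 ^ 8 → d * Real.log ρ ≤ 1 / 10 ^ 8 →
  10 ^ 11 * (L * (d + Real.log (2 * L))) ≤ (A.natDegree : ℝ) →
  ∀ x : ℂ, ∃ B Q : ℂ[X], B ≠ 0 ∧ B ^ 2 * (PA G * PB G).map (ev x) = Q ^ 2

/-- The inductive statement. -/
def SInd2 : Prop := ∀ (K : Type) [Field K] [CharZero K] (φ : ℤ[X] →+* K) (ψ : K →+* ℂ) (α : ℂ)
  (A : ℤ[X]) (L : ℕ) (r : ℝ), A.Monic → Irreducible A → aeval α A = 0 →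
  (∀ g, ψ (φ g) = ev α g) → 1 ≤ L → 1 ≤ r → (∀ a : ℂ, aeval a A = 0 → ‖a‖ ≤ r) →
  L * Real.log r ≤ 1 / 10 ^ 8 →
  ∀ (d : ℕ) (G : ℤ[X][X]) (ρ : ℝ), G.coeff 0 = 1 → G.natDegree ≤ d → Wt L d G →
  Irreducible (G.map φ) → (G.map φ).natDegree = d → 1 ≤ ρ →
  (∀ a z : ℂ, aeval a A = 0 → (G.map (ev a)).eval z = 0 → 1 ≤ ρ * ‖z‖) →
  d * Real.log ρ ≤ 1 / 10 ^ 8 →
  10 ^ 11 * (L * (d + Real.log (2 * L))) ≤ (A.natDegree : ℝ) →
  ∀ a z : ℂ, 1 < ‖a‖ → (G.map (ev a)).eval z = 0 → aeval a A = 0 →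
    ∃ u v : ℤ, (u ≠ 0 ∨ v ≠ 0) ∧ a ^ u * z ^ v = 1

open IntermediateField in
/-- The final statement. -/
def SMain2 : Prop := ∀ (α β : ℂ) (L d : ℕ) (F : ℤ[X][X]), IsIntegral ℤ α → IsIntegral ℤ β →
  α ≠ 0 → β ≠ 0 → (∀ a b : ℤ, α ^ a * β ^ b = 1 → a = 0 ∧ b = 0) → 1 ≤ L →
  F ≠ 0 → (F.map (ev α)).eval β = 0 →
  (∀ i j : ℕ, (F.coeff j).coeff i ≠ 0 → i * d + j * L ≤ L * d) →
  (minpoly ℚ⟮α⟯ β).natDegree = d →
  10 ^ 11 * (L * (d + Real.log (2 * L))) ≤ ((minpoly ℚ α).natDegree : ℝ) →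
  ∃ σ : ℚ⟮α, β⟯ →+* ℂ,
    1 / 10 ^ 8 / (L : ℝ) ≤ Real.log ‖σ ⟨α, subset_adjoin ℚ _ (Or.inl rfl)⟩‖ ∨
    1 / 10 ^ 8 / (d : ℝ) ≤ Real.log ‖σ ⟨β, subset_adjoin ℚ _ (Or.inr rfl)⟩‖

theorem thr_one (L d m : ℕ) (h : 10 ^ 11 * (L * (d + Real.log (2 * L))) ≤ (m : ℝ)) :
    10 ^ 11 * (L * ((1 : ℕ) : ℝ) * Real.log (2 * L * ((1 : ℕ) : ℝ))) ≤ (m : ℝ) := by
  rw [Nat.cast_one, mul_one, mul_one]
  have : (0 : ℝ) ≤ L * d := by positivity
  linarith

theorem score2 (hTrans : STrans) (hRoot : SRoot2) (hHedge : SHedge) (hVan : SVanish)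
    (hKer : SKer) (hSqrt : SSqrt) (hGr : SGr) (hLin : SLin) : SCore2 := by
  intro A G L d r ρ hA hirr hL hd hG0 hGd hW hr hρ hroots hz hLr hdρ hm x₀
  set m := A.natDegree with hmdef
  obtain ⟨hlog, hm10⟩ := num_log L 1 m hL le_rfl (thr_one L d m hm)
  have hL' : (1 : ℝ) ≤ L := by exact_mod_cast hL
  have hd' : (1 : ℝ) ≤ d := by exact_mod_cast hd
  have hm6 : 6 ≤ m := by
    have : (6 : ℝ) ≤ m := by linarith
    exact_mod_cast this
  obtain ⟨K, hK⟩ : ∃ K : ℕ, K = 10 ^ 7 * d ^ 2 := ⟨_, rfl⟩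
  have hK' : (K : ℝ) = 10 ^ 7 * d ^ 2 := by rw [hK]; push_cast; ring
  have hdK : d ≤ K := by rw [hK]; nlinarith
  have hk : 4 * 10 ^ 6 * (d * (2 * d)) ≤ (K : ℝ) + 1 - d := by rw [hK']; nlinarith
  have hk0 : 0 < (K : ℝ) + 1 - d := lt_of_lt_of_le (by positivity) hk
  have hS : (m : ℝ) / 3 ≤ ((m / 2 : ℕ) : ℝ) := by
    have : m ≤ 3 * (m / 2) := by omega
    have : (m : ℝ) ≤ 3 * ((m / 2 : ℕ) : ℝ) := by exact_mod_cast this
    linarith
  have hkL : K * L ≤ m / 2 * d := by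
    have a0 : 0 ≤ Real.log (2 * L) := Real.log_nonneg (by linarith)
    have a1 : 10 ^ 7 * ((L : ℝ) * d) ≤ ((m / 2 : ℕ) : ℝ) := by nlinarith
    have a2 := mul_le_mul_of_nonneg_right a1 (show (0 : ℝ) ≤ d by linarith)
    have : (K : ℝ) * L ≤ ((m / 2 : ℕ) : ℝ) * d := by rw [hK']; linarith
    exact_mod_cast this
  obtain ⟨I, hIc, hIr, hI⟩ := hTrans A m r hA hirr rfl hm6 hr hroots
  set R : ℝ := r ^ 2 + 1 / m with hR
  have hm0 : (0 : ℝ) < m := by linarith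
  have hr2 : 1 ≤ r ^ 2 := one_le_pow₀ hr
  have hrr : r ≤ r ^ 2 := by nlinarith
  have hminv : 0 < 1 / (m : ℝ) := by positivity
  have hIR : ∀ a ∈ I, ‖a‖ < R := fun a ha => by have := hIr a ha; linarith
  have hR1 : 1 ≤ R := by linarith
  set γ : ℝ := 2 * L / (((m / 2 : ℕ) : ℝ) * d) with hγ
  set l₀ : ℝ := Real.log 2 + 5 * Real.log m + 2 * m * Real.log r with hl₀
  set u : ℂ → ℝ := fun x => Real.log ρ + 2 * d / (K + 1 - d) +
    γ * (l₀ + ∑ a ∈ I, Real.log ‖(R : ℂ) * x - a‖) with hu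
  have hγ0 : 0 ≤ γ := by positivity
  have key : ∀ x : ℂ, ‖x‖ = 1 → 0 ≤ u x ∧
      ∀ s : Multiset ℂ, G.map (ev x) = lin s → s.card = d → ∀ w ∈ s, ‖w‖ ≤ Real.exp (u x) := by
    intro x hx
    have hne : ∀ a ∈ I, ‖(R : ℂ) * x - a‖ ≠ 0 := by
      intro a ha h0
      have h1 : (R : ℂ) * x = a := sub_eq_zero.1 (norm_eq_zero.1 h0)
      have h2 := hIR a ha
      rw [← h1, norm_mul, hx, Complex.norm_real, Real.norm_of_nonneg (by linarith)] at h2
      linarith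
    have hlogΛ : Real.log (2 * (m : ℝ) ^ 5 * r ^ (2 * m) * ∏ a ∈ I, ‖(R : ℂ) * x - a‖) =
        l₀ + ∑ a ∈ I, Real.log ‖(R : ℂ) * x - a‖ := by
      rw [Real.log_mul (by positivity) (Finset.prod_ne_zero_iff.2 hne), Real.log_prod hne,
        Real.log_mul (by positivity) (by positivity), Real.log_mul (by norm_num) (by positivity),
        Real.log_pow, Real.log_pow, hl₀]
      push_cast
      ring
    obtain ⟨h1, h2⟩ := hRoot G L d K (m / 2) {a | aeval a A = 0} ρ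
      (2 * (m : ℝ) ^ 5 * r ^ (2 * m) * ∏ a ∈ I, ‖(R : ℂ) * x - a‖) x hL hd hG0 hGd hW hρ hdK hkL
      (fun a ha z hz' => hz a z ha hz') (fun f W hf hW' => hI f W hf hW' x hx)
    have h3 := Real.log_nonneg h1
    rw [hlogΛ] at h2 h3
    refine ⟨?_, h2⟩
    have := Real.log_nonneg hρ
    simp only [hu]
    positivity
  set N : ℕ := 10 ^ 6 * (4 * d) ^ 2 with hN
  set M : ℕ := 2 * (4 * d + N) with hM
  have hN1 : 4 * d ≤ N := by rw [hN]; nlinarith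
  obtain ⟨Φ, hΦ0, hΦ⟩ := hSqrt G M hG0
  have hdvd : ∀ x : ℂ, X ^ M ∣ (Φ.map (ev x)) ^ 2 - (PA G * PB G).map (ev x) := by
    intro x
    have := Polynomial.map_dvd (ev x) hΦ
    simpa [Polynomial.map_pow, Polynomial.map_sub] using this
  have hdet : ∀ (x : ℂ) (e : Fin N → ℕ),
      (Matrix.of fun i j : Fin N => (Φ.map (ev x)).coeff (e i + j)).det =
        ev x (Matrix.of fun i j : Fin N => Φ.coeff (e i + j)).det := by
    intro x e
    rw [RingHom.map_det]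
    congr 1
    ext i j
    simp
  obtain ⟨s₀, t₀, hs₀, ht₀, -, -, hP₀⟩ := rad_lin hGr hLin G d hG0 hGd x₀
  refine hKer (Φ.map (ev x₀)) _ (4 * d) N (by omega) ?_ (hdvd x₀) ?_
  · rw [hP₀]
    refine (hLin.2.1 _).2.trans ?_
    simp [hs₀, ht₀]
    omega
  intro e he
  rw [hdet]
  suffices hz : (Matrix.of fun i j : Fin N => Φ.coeff (e i + j)).det = 0 by rw [hz, map_zero]
  have hN0 : (0 : ℝ) < N := by
    have : 0 < N := by omega
    exact_mod_cast this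
  refine hVan _ I R
    ((N : ℝ) * M * (1 / 10 ^ 8 / d + 3 * (Real.log ρ + 2 * d / (K + 1 - d) + γ * l₀)) -
      (N : ℝ) ^ 2 / (16384 * (4 * d)))
    (N * M * (2 * γ)) (N * M * γ) (by linarith) hIR ?_ ?_
  · intro x hx
    obtain ⟨s, t, hs, ht, hs', ht', hP⟩ := rad_lin hGr hLin G d hG0 hGd x
    obtain ⟨hu1, hb1⟩ := key x hx
    obtain ⟨hu2, hb2⟩ := key (x ^ 2) (by rw [norm_pow, hx, one_pow])
    have hη : (0 : ℝ) < 1 / 10 ^ 8 / d := by positivity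
    set b := (s.map (fun w => w ^ 2) + s.map fun w => -w ^ 2) + (t + t.map fun w => -w) with hb
    have hbc : b.card = 4 * d := by simp [hb, hs, ht]; omega
    have hlt : ∀ w ∈ b, ‖w‖ < Real.exp (1 / 10 ^ 8 / d + 2 * u x + u (x ^ 2)) := by
      have a1 : ∀ w ∈ s, ‖w‖ ^ 2 < Real.exp (1 / 10 ^ 8 / d + 2 * u x + u (x ^ 2)) := by
        intro w hw
        have b1 := pow_le_pow_left₀ (norm_nonneg w) (hb1 s hs' hs w hw) 2
        rw [← Real.exp_nat_mul] at b1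
        exact b1.trans_lt (Real.exp_lt_exp.2 (by push_cast; linarith))
      have a2 : ∀ w ∈ t, ‖w‖ < Real.exp (1 / 10 ^ 8 / d + 2 * u x + u (x ^ 2)) := fun w hw =>
        (hb2 t ht' ht w hw).trans_lt (Real.exp_lt_exp.2 (by linarith))
      intro w hw
      simp only [hb, Multiset.mem_add, Multiset.mem_map] at hw
      rcases hw with (⟨v, hv, rfl⟩ | ⟨v, hv, rfl⟩) | hw | ⟨v, hv, rfl⟩
      · rw [norm_pow]; exact a1 v hv
      · rw [norm_neg, norm_pow]; exact a1 v hv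
      · exact a2 w hw
      · rw [norm_neg]; exact a2 v hv
    have hH := hHedge b (Real.exp (1 / 10 ^ 8 / d + 2 * u x + u (x ^ 2))) (Φ.map (ev x)) M N e
      (by omega) (Real.one_le_exp (by linarith)) hlt (by simp [hΦ0]) (hP ▸ hdvd x)
      (by rw [hbc]) (by rw [hbc]; exact he)
    rw [hdet, ← Real.exp_nat_mul, ← Real.exp_add, hbc] at hH
    refine hH.trans (le_of_eq ?_)
    congr 1
    simp only [hu]
    push_cast
    ring
  · have hlR : Real.log R ≤ 2 * Real.log r + 1 / m := by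
      have a1 : R ≤ r ^ 2 * (1 + 1 / m) := by rw [hR]; nlinarith
      have a2 := Real.log_le_log (by linarith) a1
      rw [Real.log_mul (by positivity) (by positivity), Real.log_pow] at a2
      have a3 := Real.log_le_sub_one_of_pos (show (0 : ℝ) < 1 + 1 / m by positivity)
      push_cast at a2
      linarith
    have hlR0 := Real.log_nonneg hR1
    have hcm : (I.card : ℝ) ≤ m := by
      have : I.card ≤ m := by omega
      exact_mod_cast this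
    have hc : (I.card : ℝ) * Real.log R ≤ 2 * m * Real.log r + 1 := by
      have a1 : (I.card : ℝ) * Real.log R ≤ m * (2 * Real.log r + 1 / m) :=
        mul_le_mul hcm hlR hlR0 hm0.le
      have a2 : (m : ℝ) * (2 * Real.log r + 1 / m) = 2 * m * Real.log r + 1 := by field_simp
      linarith
    have hM4 : (M : ℝ) ≤ 4 * N := by
      have : M ≤ 4 * N := by omega
      exact_mod_cast this
    have hlm1 : 1 ≤ Real.log m := by
      have a1 : Real.log (2 ^ 2) ≤ Real.log m := Real.log_le_log (by norm_num) (by linarith)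
      rw [Real.log_pow] at a1
      have := log_two_ge
      push_cast at a1
      linarith
    have hl2 : Real.log 2 ≤ 1 := by have := Real.log_two_lt_d9; linarith
    exact final_num L d m N M ((m / 2 : ℕ) : ℝ) (K + 1 - d) (Real.log r) (Real.log ρ) (Real.log m)
      (Real.log 2) (2 * d) I.card (Real.log R) hL' hd' hm10 hN0 (by positivity) hM4 hS
      hk (by linarith) (Real.log_nonneg hr) (Real.log_nonneg hρ) hLr hdρ hlog hlm1 hl2
      (by have := log_two_ge; linarith) hc (by positivity)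

end Pool.Agent.MP_670f9a_nt.H76
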