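import Pool.Agent.MP_670f9a_nt.H13.All
import Pool.Agent.MP_670f9a_nt.H76.Core2

/-!
The final statement under the weaker degree hypothesis.
-/

namespace Pool.Agent.MP_670f9a_nt.H76

open Polynomial Pool.Agent.MP_670f9a_nt.H13 IntermediateField

theorem sind2 : SGr → SLin → SCore2 → SDouble → SDep → SInd2 := by
  intro _ hL hC hD hP K _ _ φ ψ α A L r hA hi h0 hψ hL1 hr hroots hLr d
  induction d using Nat.strong_induction_on with
  | _ d ih =>
  intro G ρ hG0 hGd hW hirr hdeg hρ hz hdρ hbig a z ha haz hAa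
  have hd : 1 ≤ d := hdeg ▸ hirr.natDegree_pos
  have hev : ev α = ψ.comp φ := RingHom.ext fun g => (hψ g).symm
  have hmap : G.map (ev α) = (G.map φ).map ψ := by rw [hev, Polynomial.map_map]
  have h4L : 4 * L < A.natDegree := by
    have h1 : (1 : ℝ) ≤ L := by exact_mod_cast hL1
    have h2 : (1 : ℝ) ≤ d := by exact_mod_cast hd
    have h3 : 0 ≤ Real.log (2 * L) := Real.log_nonneg (by linarith)
    have h5 : (L : ℝ) * 1 ≤ L * (d + Real.log (2 * L)) :=
      mul_le_mul_of_nonneg_left (by linarith) (by linarith)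
    have : (4 * L : ℝ) < A.natDegree := by linarith
    exact_mod_cast this
  have hK0 : (G.map φ).coeff 0 = 1 := by rw [coeff_map, hG0, map_one]
  have hKn : ((G.map φ).comp (-X)).natDegree = d := by
    rw [natDegree_comp, hdeg]; simp
  by_cases hco : IsCoprime (G.map φ) ((G.map φ).comp (-X))
  · obtain ⟨s, hs, hlin⟩ := hL.1 (G.map (ev α)) d (by rw [coeff_map, hG0, map_one])
      (natDegree_map_le.trans hGd)
    have hirr' : Irreducible ((G.map φ).comp (-X)) := by
      have := (MulEquiv.irreducible_iff (algEquivAevalNegX (R := K))).2 hirr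
      simpa [comp_eq_aeval] using this
    have hprod : lin (s + s.map fun w => -w) = (G.map φ * (G.map φ).comp (-X)).map ψ := by
      rw [H50.lin_add, ← H50.lin_neg, ← hlin, hmap, Polynomial.map_mul, map_comp]
      simp
    have hnd : (s + s.map fun w => -w).Nodup := by
      refine H50.nodup_of_sep hL _ ?_ ?_
      · rw [hprod]
        exact (hirr.separable.mul hirr'.separable hco).map
      · rw [hprod, natDegree_map, natDegree_mul hirr.ne_zero hirr'.ne_zero, hdeg, hKn]
        simp [hs]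
    have hsq := hC A G L d r ρ hA hi hL1 hd hG0 hGd hW hr hρ hroots hz hLr hdρ hbig
    have hdb := hD A G L d α s hA hi h0 hd h4L hG0 hGd hW hlin hs hnd hsq
    refine hP G a z (fun h => by simp [h] at hG0) ha ?_ fun k => ?_
    · rintro rfl
      rw [← coeff_zero_eq_eval_zero, coeff_map, hG0, map_one] at haz
      exact one_ne_zero haz
    · induction k with
      | zero => left; simpa using haz
      | succ k ihk =>
        rw [pow_succ, pow_mul, pow_mul]
        rcases ihk with h | h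
        · exact hdb _ _ h
        · simpa using hdb _ _ h
  · have hdvd : G.map φ ∣ (G.map φ).comp (-X) := by
      by_contra h
      exact hco (hirr.coprime_iff_not_dvd.2 h)
    obtain ⟨q, hq⟩ := hdvd
    have hq0 : q ≠ 0 := by
      rintro rfl
      rw [mul_zero] at hq
      rw [hq] at hKn
      simp at hKn
      omega
    have hqd : q.natDegree = 0 := by
      have := congrArg natDegree hq
      rw [natDegree_mul hirr.ne_zero hq0, hKn, hdeg] at this
      omega
    have hq1 : q = 1 := by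
      have := congrArg (coeff · 0) hq
      simp only [H50.coeff_comp_neg, mul_coeff_zero, hK0] at this
      rw [eq_C_of_natDegree_eq_zero hqd, ← show (1 : K) = q.coeff 0 by simpa using this, C_1]
    rw [hq1, mul_one] at hq
    have hodd : ∀ j, ¬ 2 ∣ j → G.coeff j = 0 := by
      intro j hj
      rcases lt_or_ge d j with h | h
      · exact coeff_eq_zero_of_natDegree_lt (by omega)
      have h1 := congrArg (coeff · j) hq
      simp only [H50.coeff_comp_neg, coeff_map] at h1
      rw [Odd.neg_one_pow (by rw [← Nat.not_even_iff_odd, even_iff_two_dvd]; exact hj)] at h1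
      have h2 : φ (G.coeff j) = 0 := by linear_combination (-1 / 2 : K) * h1
      have h3 : aeval α (G.coeff j) = 0 := by
        have := hψ (G.coeff j)
        rw [h2, map_zero] at this
        rw [aeval_def]
        exact this.symm
      refine H50.eq_zero_of_root A _ α hA hi h0 h3 ?_
      have h4 := hW j
      have h5 : d * (G.coeff j).natDegree ≤ d * L := by nlinarith
      have := Nat.le_of_mul_le_mul_left h5 hd
      omega
    have hG : G = expand ℤ[X] 2 (contract 2 G) := by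
      ext1 j
      rw [coeff_expand (by norm_num)]
      split_ifs with h
      · rw [coeff_contract (by norm_num), Nat.div_mul_cancel h]
      · exact hodd j h
    have hGK : G.map φ = expand K 2 ((contract 2 G).map φ) := by
      rw [← map_expand, ← hG]
    have hevx : ∀ x w : ℂ, (G.map (ev x)).eval w = ((contract 2 G).map (ev x)).eval (w ^ 2) := by
      intro x w
      conv_lhs => rw [hG, map_expand, expand_eval]
    obtain ⟨d', hd'⟩ : ∃ d', ((contract 2 G).map φ).natDegree = d' := ⟨_, rfl⟩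
    have hdd : d = d' * 2 := by rw [← hdeg, hGK, natDegree_expand, hd']
    have hρ0 : 0 < ρ := by linarith
    obtain ⟨u, v, huv, h⟩ := ih d' (by omega) (contract 2 G) (ρ ^ 2)
      (by rw [coeff_contract (by norm_num)]; simpa using hG0)
      (by
        have := congrArg natDegree hG
        rw [natDegree_expand] at this
        omega)
      (fun j => by
        rw [coeff_contract (by norm_num)]
        have := hW (j * 2)
        rw [hdd] at this
        nlinarith)
      (of_irreducible_expand (p := 2) (by norm_num) (hGK ▸ hirr)) hd' (one_le_pow₀ hρ)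
      (fun x y hx hy => by
        obtain ⟨w, rfl⟩ := IsAlgClosed.exists_pow_nat_eq y (show 0 < 2 by norm_num)
        have := hz x w hx (by rw [hevx, hy])
        rw [norm_pow, ← mul_pow]
        exact one_le_pow₀ this)
      (by
        rw [Real.log_pow]
        rw [hdd] at hdρ
        push_cast at hdρ ⊢
        linarith)
      (by
        refine le_trans ?_ hbig
        have h3 : (d' : ℝ) ≤ d := by exact_mod_cast (show d' ≤ d by omega)
        gcongr)
      a (z ^ 2) ha (by rw [← hevx, haz]) hAa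
    refine ⟨u, 2 * v, by omega, ?_⟩
    rw [zpow_mul, ← h]
    norm_cast

theorem smain2 (hI : SInd2) (hN : SInt) : SMain2 := by
  intro α β L d F hα hβ hα0 hβ0 hind hL hF hroot hw hd hm
  by_contra hcon
  simp only [not_exists, not_or, not_le] at hcon
  have hαQ : IsIntegral ℚ α := hα.tower_top
  have hβK : IsIntegral ℚ⟮α⟯ β := hβ.tower_top
  set P := minpoly ℚ⟮α⟯ β with hP
  set A := minpoly ℤ α with hA
  have hAQ : minpoly ℚ α = A.map (algebraMap ℤ ℚ) :=
    minpoly.isIntegrallyClosed_eq_field_fractions' ℚ hα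
  have hAm : A.Monic := minpoly.monic hα
  have hAi : Irreducible A := minpoly.irreducible hα
  have hAα : aeval α A = 0 := minpoly.aeval ℤ α
  rw [hAQ, hAm.natDegree_map] at hm
  have hPm : P.Monic := minpoly.monic hβK
  have hPi : Irreducible P := minpoly.irreducible hβK
  have hP0 : P.coeff 0 ≠ 0 := minpoly.coeff_zero_ne_zero hβK hβ0
  have hd1 : 1 ≤ d := hd ▸ hPi.natDegree_pos
  obtain ⟨hn1, hn2⟩ := H95.num1 L 1 A.natDegree hL le_rfl (thr_one L d _ hm)
  have hLp : (0 : ℝ) < L := by exact_mod_cast hL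
  have hdp : (0 : ℝ) < d := by exact_mod_cast hd1
  let φ : ℤ[X] →+* ℚ⟮α⟯ := eval₂RingHom (Int.castRingHom _) (AdjoinSimple.gen ℚ α)
  have hτφ : ∀ (τ : ℚ⟮α⟯ →+* ℂ) (g : ℤ[X]), τ (φ g) = ev (τ (AdjoinSimple.gen ℚ α)) g := by
    intro τ g
    simp only [φ, ev, coe_eval₂RingHom]
    rw [hom_eval₂, RingHom.eq_intCast' (τ.comp _)]
  have hev : ∀ (x : ℂ) (g : ℤ[X]), ev x g = aeval x g := by
    intro x g
    simp only [ev, coe_eval₂RingHom, aeval_def, RingHom.eq_intCast' (algebraMap ℤ ℂ)]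
  have hψφ : ∀ g : ℤ[X], algebraMap ℚ⟮α⟯ ℂ (φ g) = ev α g := hτφ (algebraMap ℚ⟮α⟯ ℂ)
  have hcomp : ∀ τ : ℚ⟮α⟯ →+* ℂ, τ.comp φ = ev (τ (AdjoinSimple.gen ℚ α)) := fun τ =>
    RingHom.ext (hτφ τ)
  -- weights
  have hw' : ∀ j, F.coeff j ≠ 0 → (F.coeff j).natDegree * d + j * L ≤ L * d := fun j hj =>
    hw _ j (leadingCoeff_ne_zero.2 hj)
  have hFd : F.natDegree ≤ d := by
    have h1 := hw' F.natDegree (leadingCoeff_ne_zero.2 hF)
    by_contra h2
    have h3 : (d + 1) * L ≤ F.natDegree * L := Nat.mul_le_mul_right _ (by omega)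
    nlinarith
  have hFL : ∀ j, (F.coeff j).natDegree ≤ L := fun j => by
    by_cases hj : F.coeff j = 0
    · rw [hj, natDegree_zero]; omega
    · have h1 := hw' j hj
      exact Nat.le_of_mul_le_mul_right (by omega) hd1
  have hFK : F.map φ ≠ 0 := by
    intro h0
    have h1 : φ F.leadingCoeff = 0 := by
      rw [leadingCoeff, ← coeff_map, h0, coeff_zero]
    have h2 : aeval α F.leadingCoeff = 0 := by rw [← hev, ← hψφ, h1, map_zero]
    have h3 := natDegree_le_of_dvd (minpoly.isIntegrallyClosed_dvd hα h2)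
      (leadingCoeff_ne_zero.2 hF)
    have h4 := hFL F.natDegree
    rw [coeff_natDegree] at h4
    rw [← hA] at h3
    omega
  have hdvd : P ∣ F.map φ := by
    refine minpoly.dvd _ _ ?_
    rw [aeval_def, eval₂_map, hcomp, ← eval_map]
    exact hroot
  have hFKd : (F.map φ).natDegree = d :=
    le_antisymm (natDegree_map_le.trans hFd) (hd ▸ natDegree_le_of_dvd hdvd hFK)
  have hFP := eq_leadingCoeff_mul_of_monic_of_dvd_of_natDegree_le hPm hdvd (by rw [hFKd, hd])
  have hlc : (F.map φ).leadingCoeff = φ (F.coeff d) := by rw [leadingCoeff, hFKd, coeff_map]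
  have hFd0 : F.coeff d ≠ 0 := fun h0 => by
    rw [h0, map_zero] at hlc
    exact hFK (leadingCoeff_eq_zero.1 hlc)
  have hq0 : (F.coeff d).natDegree = 0 := by
    have h1 := hw' d hFd0
    by_contra h2
    have h3 : 1 * d ≤ (F.coeff d).natDegree * d := Nat.mul_le_mul_right _ (by omega)
    nlinarith
  obtain ⟨q, hq⟩ := natDegree_eq_zero.1 hq0
  have hqne : q ≠ 0 := fun h0 => hFd0 (by rw [← hq, h0, map_zero])
  have hφq : φ (C q) = (q : ℚ⟮α⟯) := by simp [φ]
  rw [hlc, ← hq, hφq] at hFP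
  have hqK : (q : ℚ⟮α⟯) ≠ 0 := Int.cast_ne_zero.2 hqne
  -- embeddings
  have hτ : ∀ a : ℂ, aeval a A = 0 → ∃ τ : ℚ⟮α⟯ →+* ℂ, τ (AdjoinSimple.gen ℚ α) = a := by
    intro a ha
    obtain ⟨τ, h1, -⟩ := H95.ext_emb (algebraMap ℚ ℂ) α a hαQ (by
      rw [hAQ, ← aeval_def, aeval_map_algebraMap]; exact ha)
    exact ⟨τ, h1⟩
  have hrt : ∀ τ : ℚ⟮α⟯ →+* ℂ, ∃ b : ℂ, b ≠ 0 ∧ P.eval₂ τ b = 0 := by
    intro τ
    obtain ⟨b, hb⟩ := IsAlgClosed.exists_root (P.map τ) (by
      rw [degree_map]; exact (degree_pos_of_irreducible hPi).ne')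
    rw [IsRoot, eval_map] at hb
    refine ⟨b, fun h0 => ?_, hb⟩
    rw [h0, eval₂_at_zero] at hb
    exact hP0 (τ.injective (by rw [hb, map_zero]))
  have hra : ∀ a : ℂ, aeval a A = 0 → ‖a‖ ≤ Real.exp (1 / 10 ^ 8 / (L : ℝ)) := by
    intro a ha
    obtain ⟨τ, h1⟩ := hτ a ha
    obtain ⟨b, -, hb⟩ := hrt τ
    obtain ⟨σ, h2, -⟩ := H95.pair_emb α β b τ hβK hb
    have h3 := (hcon σ).1
    rw [h2, h1] at h3
    exact (Real.le_exp_log _).trans (Real.exp_le_exp.2 h3.le)
  have hr1 : (1 : ℝ) ≤ Real.exp (1 / 10 ^ 8 / (L : ℝ)) := Real.one_le_exp (by positivity)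
  have hρ1 : (1 : ℝ) ≤ Real.exp (1 / 10 ^ 8 / (d : ℝ)) := Real.one_le_exp (by positivity)
  -- divisibility by the top coefficient
  have hdiv : ∀ j, C q ∣ F.coeff j := by
    intro j
    refine hN A (F.coeff j) A.natDegree L _ q α hAm hAi rfl (by omega) hr1 hra hAα hqne hL
      (by omega) (hFL j) ?_ (by rw [Real.log_exp]; exact hn2)
    have h1 : IsIntegral ℤ (P.coeff j) :=
      isIntegral_coeff_of_dvd (minpoly ℤ β) P (minpoly.monic hβ) hPm
        (minpoly.dvd _ _ (by rw [aeval_map_algebraMap]; exact minpoly.aeval ℤ β)) j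
    have h2 : φ (F.coeff j) = q * P.coeff j := by rw [← coeff_map, hFP, coeff_C_mul]
    have h3 : aeval α (F.coeff j) / (q : ℂ) = algebraMap ℚ⟮α⟯ ℂ (P.coeff j) := by
      rw [← hev, ← hψφ, h2, map_mul, map_intCast,
        mul_div_cancel_left₀ _ (Int.cast_ne_zero.2 hqne)]
    rw [h3]
    exact h1.algebraMap
  obtain ⟨F', hF'⟩ := (C_dvd_iff_dvd_coeff (C q) F).2 hdiv
  have hc' : ∀ j, F.coeff j = C q * F'.coeff j := fun j => by rw [hF', coeff_C_mul]
  have hCq : (C q : ℤ[X]) ≠ 0 := C_ne_zero.2 hqne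
  have hF'P : F'.map φ = P := by
    rw [hF', Polynomial.map_mul, map_C, hφq] at hFP
    exact mul_left_cancel₀ (C_ne_zero.2 hqK) hFP
  have hF'd : F'.natDegree ≤ d := by
    rw [hF', natDegree_C_mul hCq] at hFd
    exact hFd
  have hG0 : (reflect d F').coeff 0 = 1 := by
    rw [coeff_reflect, revAt_zero]
    refine mul_left_cancel₀ hCq ?_
    rw [← hc', mul_one, hq]
  have hGd : (reflect d F').natDegree ≤ d := natDegree_reflect_le.trans (max_le le_rfl hF'd)
  have hGw : Wt L d (reflect d F') := by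
    intro j
    by_cases hj : (reflect d F').coeff j = 0
    · rw [hj, natDegree_zero]; omega
    · have hjd : j ≤ d := (le_natDegree_of_ne_zero hj).trans hGd
      rw [coeff_reflect, revAt_le hjd] at hj ⊢
      have h1 := hw' (d - j) (by rw [hc']; exact mul_ne_zero hCq hj)
      rw [hc', natDegree_C_mul hqne] at h1
      obtain ⟨e, rfl⟩ := Nat.exists_eq_add_of_le hjd
      rw [Nat.add_sub_cancel_left] at h1 ⊢
      nlinarith
  have hGφ : (reflect d F').map φ = reflect P.natDegree P := by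
    rw [← reflect_map, hF'P, hd]
  obtain ⟨hirr, hdeg⟩ := H95.irr_reflect P hPm hPi hP0
  have hGev : ∀ (τ : ℚ⟮α⟯ →+* ℂ) (b : ℂ), b ≠ 0 →
      ((((reflect d F').map (ev (τ (AdjoinSimple.gen ℚ α)))).eval b⁻¹ = 0) ↔
        P.eval₂ τ b = 0) := by
    intro τ b hb
    let _ : Invertible b := invertibleOfNonzero hb
    rw [← hcomp, ← Polynomial.map_map, hGφ, eval_map, ← invOf_eq_inv]
    exact eval₂_reflect_eq_zero_iff τ b _ P le_rfl
  have hρ : ∀ a z : ℂ, aeval a A = 0 → ((reflect d F').map (ev a)).eval z = 0 →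
      1 ≤ Real.exp (1 / 10 ^ 8 / (d : ℝ)) * ‖z‖ := by
    intro a z ha hz
    obtain ⟨τ, h1⟩ := hτ a ha
    have hz0 : z ≠ 0 := fun h0 => by
      rw [h0, ← coeff_zero_eq_eval_zero, coeff_map, hG0, map_one] at hz
      exact one_ne_zero hz
    have h2 := (hGev τ z⁻¹ (inv_ne_zero hz0)).1 (by rw [inv_inv, h1]; exact hz)
    obtain ⟨σ, -, h3⟩ := H95.pair_emb α β z⁻¹ τ hβK h2
    have h4 := (hcon σ).2
    rw [h3] at h4
    have h5 := (Real.le_exp_log _).trans (Real.exp_le_exp.2 h4.le)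
    have h6 : ‖z⁻¹‖ * ‖z‖ = 1 := by rw [← norm_mul, inv_mul_cancel₀ hz0, norm_one]
    exact h6.ge.trans (mul_le_mul_of_nonneg_right h5 (norm_nonneg _))
  -- a conjugate outside the unit disc
  have : FiniteDimensional ℚ ℚ⟮α⟯ := adjoin.finiteDimensional hαQ
  have : NumberField ℚ⟮α⟯ := ⟨⟩
  have hbig : ∃ τ : ℚ⟮α⟯ →+* ℂ, 1 < ‖τ (AdjoinSimple.gen ℚ α)‖ := by
    by_contra h1
    simp only [not_exists, not_lt] at h1
    obtain ⟨n, hn, h2⟩ := NumberField.Embeddings.pow_eq_one_of_norm_le_one ℚ⟮α⟯ ℂ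
      (x := AdjoinSimple.gen ℚ α) (fun h0 => hα0 (congrArg Subtype.val h0))
      ((isIntegral_algebraMap_iff (algebraMap ℚ⟮α⟯ ℂ).injective).1 hα) h1
    have h3 : α ^ n = 1 := by
      have h4 := congrArg (algebraMap ℚ⟮α⟯ ℂ) h2
      rwa [map_pow, map_one] at h4
    have h5 := (hind n 0 (by rw [zpow_zero, mul_one, zpow_natCast, h3])).1
    omega
  obtain ⟨τ, hτ1⟩ := hbig
  obtain ⟨b, hb0, hb⟩ := hrt τ
  have hAτ : aeval (τ (AdjoinSimple.gen ℚ α)) A = 0 := by
    have h1 : φ A = 0 := (algebraMap ℚ⟮α⟯ ℂ).injective (by rw [hψφ, hev, hAα, map_zero])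
    rw [← hev, ← hτφ, h1, map_zero]
  obtain ⟨u, v, huv, h1⟩ := hI ℚ⟮α⟯ φ (algebraMap ℚ⟮α⟯ ℂ) α A L _ hAm hAi hAα hψφ hL hr1 hra
    (by rw [Real.log_exp]; exact le_of_eq (by field_simp)) d (reflect d F') _ hG0 hGd hGw
    (hGφ ▸ hirr) (by rw [hGφ, hdeg, hd]) hρ1 hρ
    (by rw [Real.log_exp]; exact le_of_eq (by field_simp)) hm _ b⁻¹ hτ1
    ((hGev τ b hb0).2 hb) hAτ
  obtain ⟨σ, h2, h3⟩ := H95.pair_emb α β b τ hβK hb
  rw [← h2, ← h3, inv_zpow', ← map_zpow₀, ← map_zpow₀, ← map_mul, ← map_one σ] at h1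
  have h4 := congrArg (algebraMap ℚ⟮α, β⟯ ℂ) (σ.injective h1)
  rw [map_mul, map_zpow₀, map_zpow₀, map_one] at h4
  have h5 := hind u (-v) h4
  omega

theorem allCore2 : SCore2 :=
  score2 (H90.strans H26.sfek H26.sdisc) (sroot2 H97.slin) allHedge H19.svanish H32.sker
    (H81.ssqrt H5.sgr) H5.sgr H97.slin

theorem allMain2 : SMain2 :=
  smain2 (sind2 H5.sgr H97.slin allCore2 (H91.sdouble H5.sgr H97.slin) H10.sdep)
    (H70.sint H26.sfek H26.sdisc)

end Pool.Agent.MP_670f9a_nt.H76
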